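import Pool.Agent.PBL.Stmts

namespace Pool.Agent.PBL

open Finset

namespace AVL_

variable {N n : ℕ}

theorem lv_eq {ω ω' : Om N n} {a : Fin N} (h : ω a = ω' a) : lv ω a = lv ω' a := by
  unfold lv; rw [h]

theorem lz_iff {ω ω' : Om N n} {a : Fin N} (h : ω a = ω' a) : lz ω a ↔ lz ω' a := by
  unfold lz; rw [h]

theorem before_iff {ω ω' : Om N n} {a b : Fin N} (ha : ω a = ω' a) (hb : ω b = ω' b) :
    before ω a b ↔ before ω' a b := by
  unfold before; rw [lv_eq ha, lv_eq hb]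

theorem pick_imp {ω ω' : Om N n} {G : ℕ} {e : Finset (Fin N)} {u w v : Fin N}
    (h : ∀ a ∈ e, ω a = ω' a) (hp : Pick ω G e u w v) : Pick ω' G e u w v := by
  refine ⟨hp.hu, hp.hw, hp.hne, ?_, ?_, ?_⟩
  · intro a ha hau
    exact (before_iff (h u hp.hu) (h a ha)).1 (hp.top a ha hau)
  · intro a ha hau haw
    exact (before_iff (h w hp.hw) (h a ha)).1 (hp.sec a ha hau haw)
  · have h1 := hp.pick
    rw [lv_eq (h w hp.hw), lv_eq (h u hp.hu), lz_iff (h u hp.hu)] at h1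
    exact h1

theorem av_imp {ω ω' : Om N n} {G Θ : ℕ} {E : Finset (Finset (Fin N))} {g : Finset (Fin N)}
    {v : Fin N} (hv : ω v = ω' v) (h : ∀ a, a ∉ g → ω a = ω' a) (hA : Av G Θ E g ω v) :
    Av G Θ E g ω' v := by
  obtain ⟨e, he, heg, hl, u, w, hp, hu⟩ := hA
  have key : ∀ a ∈ e, ω a = ω' a := by
    intro a ha
    by_cases hag : a ∈ g
    · have : a ∈ e ∩ g := mem_inter.2 ⟨ha, hag⟩
      rw [heg, mem_singleton] at this
      rw [this]; exact hv
    · exact h a hag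
  refine ⟨e, he, heg, ?_, u, w, pick_imp key hp, ?_⟩
  · intro a ha
    rw [← lv_eq (key a ha)]; exact hl a ha
  · rw [← lv_eq (key u hp.hu)]; exact hu

end AVL_

theorem t_avl : Stmt_AVL := by
  intro N n E G Θ g v ω ω' _ hv h
  exact ⟨AVL_.av_imp hv h, AVL_.av_imp hv.symm (fun a ha => (h a ha).symm)⟩

end Pool.Agent.PBL
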