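import Pool.Agent.PBL.Defs

/-! Basic facts on `ind`, `Ex`, `Pr`. -/

namespace Pool.Agent.PBL

open Finset

variable {N n : ℕ}

theorem ind_pos {p : Prop} (h : p) : ind p = 1 := by
  unfold ind; simp [h]

theorem ind_neg {p : Prop} (h : ¬ p) : ind p = 0 := by
  unfold ind; simp [h]

theorem ind_nonneg (p : Prop) : 0 ≤ ind p := by
  by_cases h : p
  · rw [ind_pos h]; norm_num
  · rw [ind_neg h]

theorem ind_le_one (p : Prop) : ind p ≤ 1 := by
  by_cases h : p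
  · rw [ind_pos h]
  · rw [ind_neg h]; norm_num

theorem ind_mono {p q : Prop} (h : p → q) : ind p ≤ ind q := by
  by_cases hp : p
  · rw [ind_pos hp, ind_pos (h hp)]
  · rw [ind_neg hp]; exact ind_nonneg q

theorem ind_congr {p q : Prop} (h : p ↔ q) : ind p = ind q := by rw [propext h]

theorem ind_and (p q : Prop) : ind (p ∧ q) = ind p * ind q := by
  by_cases hp : p
  · by_cases hq : q
    · rw [ind_pos hp, ind_pos hq, ind_pos ⟨hp, hq⟩]; norm_num
    · rw [ind_neg hq, ind_neg (fun h : p ∧ q => hq h.2)]; norm_num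
  · rw [ind_neg hp, ind_neg (fun h : p ∧ q => hp h.1)]; norm_num

theorem ind_not (p : Prop) : ind (¬ p) = 1 - ind p := by
  by_cases hp : p
  · rw [ind_pos hp, ind_neg (fun h : ¬ p => h hp)]; norm_num
  · rw [ind_neg hp, ind_pos hp]; norm_num

theorem ind_or_le (p q : Prop) : ind (p ∨ q) ≤ ind p + ind q := by
  by_cases hp : p
  · have := ind_le_one (p ∨ q)
    rw [ind_pos hp]; linarith [ind_nonneg q]
  · by_cases hq : q
    · have := ind_le_one (p ∨ q)
      rw [ind_pos hq]; linarith [ind_nonneg p]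
    · rw [ind_neg (fun h : p ∨ q => h.elim hp hq)]
      linarith [ind_nonneg p, ind_nonneg q]

theorem ind_exists_le {α : Type*} (S : Finset α) (p : α → Prop) :
    ind (∃ x ∈ S, p x) ≤ ∑ x ∈ S, ind (p x) := by
  by_cases h : ∃ x ∈ S, p x
  · obtain ⟨x, hx, hp⟩ := h
    rw [ind_pos ⟨x, hx, hp⟩, ← ind_pos hp]
    exact Finset.single_le_sum (f := fun x => ind (p x)) (fun y _ => ind_nonneg _) hx
  · rw [ind_neg h]; exact Finset.sum_nonneg (fun y _ => ind_nonneg _)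

theorem card_Lab (n : ℕ) : Fintype.card (Lab n) = 4 * n := by
  simp [Lab]; ring

theorem card_Om (N n : ℕ) : Fintype.card (Om N n) = (4 * n) ^ N := by
  simp only [Om, Fintype.card_fun, card_Lab, Fintype.card_fin]

theorem card_Om_pos (hn : 1 ≤ n) : (0 : ℝ) < (Fintype.card (Om N n) : ℝ) := by
  rw [card_Om]
  have : 0 < (4 * n) ^ N := by positivity
  exact_mod_cast this

theorem card_Om_nonneg : (0 : ℝ) ≤ (Fintype.card (Om N n) : ℝ) := Nat.cast_nonneg _

theorem Ex_mono {f g : Om N n → ℝ} (h : ∀ ω, f ω ≤ g ω) : Ex f ≤ Ex g := by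
  unfold Ex
  exact div_le_div_of_nonneg_right (Finset.sum_le_sum (fun ω _ => h ω)) card_Om_nonneg

theorem Ex_congr {f g : Om N n → ℝ} (h : ∀ ω, f ω = g ω) : Ex f = Ex g := by
  have : f = g := funext h
  rw [this]

theorem Ex_nonneg {f : Om N n → ℝ} (h : ∀ ω, 0 ≤ f ω) : 0 ≤ Ex f := by
  unfold Ex
  exact div_nonneg (Finset.sum_nonneg (fun ω _ => h ω)) card_Om_nonneg

theorem Ex_add (f g : Om N n → ℝ) : Ex (fun ω => f ω + g ω) = Ex f + Ex g := by
  unfold Ex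
  rw [Finset.sum_add_distrib, add_div]

theorem Ex_sub (f g : Om N n → ℝ) : Ex (fun ω => f ω - g ω) = Ex f - Ex g := by
  unfold Ex
  rw [Finset.sum_sub_distrib, sub_div]

theorem Ex_const_mul (c : ℝ) (f : Om N n → ℝ) : Ex (fun ω => c * f ω) = c * Ex f := by
  unfold Ex
  rw [← Finset.mul_sum, mul_div_assoc]

theorem Ex_mul_const (c : ℝ) (f : Om N n → ℝ) : Ex (fun ω => f ω * c) = Ex f * c := by
  unfold Ex
  rw [← Finset.sum_mul]; ring

theorem Ex_sum {α : Type*} (S : Finset α) (f : α → Om N n → ℝ) :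
    Ex (fun ω => ∑ x ∈ S, f x ω) = ∑ x ∈ S, Ex (f x) := by
  unfold Ex
  rw [Finset.sum_comm, Finset.sum_div]

theorem Ex_const (hn : 1 ≤ n) (c : ℝ) : Ex (fun _ : Om N n => c) = c := by
  unfold Ex
  rw [Finset.sum_const, nsmul_eq_mul, Finset.card_univ]
  field_simp [(card_Om_pos (N := N) hn).ne']

theorem Pr_nonneg (p : Om N n → Prop) : 0 ≤ Pr p := Ex_nonneg (fun _ => ind_nonneg _)

theorem Pr_le_one (hn : 1 ≤ n) (p : Om N n → Prop) : Pr p ≤ 1 := by
  have h := Ex_mono (f := fun ω : Om N n => ind (p ω)) (g := fun _ => 1) (fun ω => ind_le_one _)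
  rw [Ex_const hn] at h
  exact h

theorem Pr_mono {p q : Om N n → Prop} (h : ∀ ω, p ω → q ω) : Pr p ≤ Pr q :=
  Ex_mono (fun ω => ind_mono (h ω))

theorem Pr_not (hn : 1 ≤ n) (p : Om N n → Prop) : Pr (fun ω => ¬ p ω) = 1 - Pr p := by
  unfold Pr
  rw [← Ex_const (N := N) hn 1, ← Ex_sub]
  exact Ex_congr (fun ω => ind_not _)

theorem Pr_or_le (p q : Om N n → Prop) : Pr (fun ω => p ω ∨ q ω) ≤ Pr p + Pr q := by
  unfold Pr
  rw [← Ex_add]
  exact Ex_mono (fun ω => ind_or_le _ _)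

theorem Pr_exists_le {α : Type*} (S : Finset α) (p : α → Om N n → Prop) :
    Pr (fun ω => ∃ x ∈ S, p x ω) ≤ ∑ x ∈ S, Pr (p x) := by
  unfold Pr
  rw [← Ex_sum]
  exact Ex_mono (fun ω => ind_exists_le _ _)

/-- Markov -/
theorem markov (X : Om N n → ℕ) (K : ℕ) :
    (K : ℝ) * Pr (fun ω => K ≤ X ω) ≤ Ex (fun ω => (X ω : ℝ)) := by
  unfold Pr
  rw [← Ex_const_mul]
  apply Ex_mono
  intro ω
  by_cases h : K ≤ X ω
  · rw [ind_pos h]; simp only [mul_one]; exact_mod_cast h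
  · rw [ind_neg h]; simp

theorem exists_of_Pr_lt_one (hn : 1 ≤ n) (p : Om N n → Prop) (h : Pr p < 1) : ∃ ω, ¬ p ω := by
  by_contra hc
  push Not at hc
  have : Pr p = 1 := by
    unfold Pr
    rw [← Ex_const (N := N) hn 1]
    exact Ex_congr (fun ω => ind_pos (hc ω))
  linarith

/-! basic facts on alive sets -/

theorem al_mono {ω : Om N n} {i j : ℕ} (h : i ≤ j) {A : Finset (Fin N)} (hA : al ω j A) :
    al ω i A := fun a ha => ⟨le_trans h (hA a ha).1, (hA a ha).2⟩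

theorem al_subset {ω : Om N n} {j : ℕ} {A A' : Finset (Fin N)} (h : A' ⊆ A) (hA : al ω j A) :
    al ω j A' := fun a ha => hA a (h ha)

theorem mem_alv {F : Finset (Finset (Fin N))} {ω : Om N n} {j : ℕ} {A : Finset (Fin N)} :
    A ∈ alv F ω j ↔ A ∈ F ∧ al ω j A := by
  unfold alv; simp

theorem mem_un {F : Finset (Finset (Fin N))} {ω : Om N n} {j : ℕ} {u : Fin N} :
    u ∈ un F ω j ↔ ∃ A ∈ F, al ω j A ∧ u ∈ A := by
  unfold un; simp [mem_alv, and_assoc]

theorem mem_alA {F : Finset (Finset (Fin N))} {A : Finset (Fin N)} {ω : Om N n} {j : ℕ}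
    {A' : Finset (Fin N)} : A' ∈ alA F A ω j ↔ A' ∈ F ∧ al ω j (A' \ A) := by
  unfold alA; simp

theorem alv_anti {F : Finset (Finset (Fin N))} {ω : Om N n} {i j : ℕ} (h : i ≤ j) :
    alv F ω j ⊆ alv F ω i := fun A hA => by
  rw [mem_alv] at hA ⊢; exact ⟨hA.1, al_mono h hA.2⟩

theorem Nc_anti {F : Finset (Finset (Fin N))} {ω : Om N n} {i j : ℕ} (h : i ≤ j) :
    Nc F ω j ≤ Nc F ω i := Finset.card_le_card (alv_anti h)

theorem alA_anti {F : Finset (Finset (Fin N))} {A : Finset (Fin N)} {ω : Om N n} {i j : ℕ}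
    (h : i ≤ j) : alA F A ω j ⊆ alA F A ω i := fun A' hA => by
  rw [mem_alA] at hA ⊢; exact ⟨hA.1, al_mono h hA.2⟩

theorem NA_anti {F : Finset (Finset (Fin N))} {A : Finset (Fin N)} {ω : Om N n} {i j : ℕ}
    (h : i ≤ j) : NA F A ω j ≤ NA F A ω i := Finset.card_le_card (alA_anti h)

theorem one_le_Nc {F : Finset (Finset (Fin N))} {ω : Om N n} {j : ℕ} :
    1 ≤ Nc F ω j ↔ ∃ A ∈ F, al ω j A := by
  unfold Nc
  rw [Nat.one_le_iff_ne_zero, Finset.card_ne_zero]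
  constructor
  · rintro ⟨A, hA⟩; rw [mem_alv] at hA; exact ⟨A, hA⟩
  · rintro ⟨A, hA⟩; exact ⟨A, mem_alv.2 hA⟩

theorem Nc_eq_zero {F : Finset (Finset (Fin N))} {ω : Om N n} {j : ℕ} :
    Nc F ω j = 0 ↔ ∀ A ∈ F, ¬ al ω j A := by
  have := one_le_Nc (F := F) (ω := ω) (j := j)
  constructor
  · intro h A hA hal
    have := this.2 ⟨A, hA, hal⟩
    omega
  · intro h
    by_contra hc
    obtain ⟨A, hA, hal⟩ := this.1 (by omega)
    exact h A hA hal

/-- the immortal set itself is always alive -/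
theorem one_le_NA {F : Finset (Finset (Fin N))} {A : Finset (Fin N)} (hA : A ∈ F) (ω : Om N n)
    (j : ℕ) : 1 ≤ NA F A ω j := by
  unfold NA
  rw [Nat.one_le_iff_ne_zero, Finset.card_ne_zero]
  refine ⟨A, mem_alA.2 ⟨hA, ?_⟩⟩
  intro a ha
  simp at ha

theorem sb_nonneg (F : Finset (Finset (Fin N))) (ω : Om N n) (G Θ i : ℕ) : 0 ≤ sb F ω G Θ i := by
  unfold sb; split_ifs <;> norm_num

theorem sb_le_one (F : Finset (Finset (Fin N))) (ω : Om N n) (G Θ i : ℕ) : sb F ω G Θ i ≤ 1 := by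
  unfold sb; split_ifs <;> norm_num

theorem zb_nonneg (F : Finset (Finset (Fin N))) (ω : Om N n) (G Θ : ℕ) : 0 ≤ zb F ω G Θ :=
  Finset.sum_nonneg (fun i _ => sb_nonneg F ω G Θ i)

theorem Hm_nonneg (K : ℕ) : 0 ≤ Hm K :=
  Finset.sum_nonneg (fun l _ => by positivity)

theorem mu_nonneg (n : ℕ) (F : Finset (Finset (Fin N))) : 0 ≤ mu n F := by
  unfold mu; positivity

end Pool.Agent.PBL
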