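import Pool.Agent.PBL.Stmts

namespace Pool.Agent.PBL

open Finset

theorem t_bsd (hDET : Stmt_DET) (hRED : Stmt_RED) (hPRD : Stmt_PRD) (hPRM : Stmt_PRM)
    (hSUM : Stmt_SUM) : Stmt_BSD := by
  intro N n E hE G Θ hG hΘ hn hlt
  have hn2 : 2 ≤ n := by omega
  apply hRED N n (by omega) E hE
  refine lt_of_le_of_lt ?_ hlt
  have h1 := hPRD N n (by omega) E hE Θ (by omega)
  have h2 := hPRM N n hn2 E hE G Θ (by omega) (by omega)
  have h3 := hSUM N n E hE G Θ hG hΘ hn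
  have h4 : Pr (fun ω : Om N n => ¬ Good E ω) ≤
      Pr (fun ω : Om N n => EvD Θ E ω) + Pr (fun ω : Om N n => EvM G Θ E ω) +
        Pr (fun ω : Om N n => ∃ g ∈ E, EvG G Θ E g ω) := by
    unfold Pr
    rw [← Ex_add, ← Ex_add]
    apply Ex_mono
    intro ω
    have h5 : ¬ Good E ω → (EvD Θ E ω ∨ EvM G Θ E ω) ∨ ∃ g ∈ E, EvG G Θ E g ω := by
      intro h
      by_contra hc
      apply h
      push Not at hc
      exact hDET N n hn2 E hE G Θ ω hc.1.1 hc.1.2 hc.2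
    calc ind (¬ Good E ω) ≤ ind ((EvD Θ E ω ∨ EvM G Θ E ω) ∨ ∃ g ∈ E, EvG G Θ E g ω) :=
          ind_mono h5
      _ ≤ ind (EvD Θ E ω ∨ EvM G Θ E ω) + ind (∃ g ∈ E, EvG G Θ E g ω) := ind_or_le _ _
      _ ≤ ind (EvD Θ E ω) + ind (EvM G Θ E ω) + ind (∃ g ∈ E, EvG G Θ E g ω) := by
          have := ind_or_le (EvD Θ E ω) (EvM G Θ E ω)
          linarith
  linarith

end Pool.Agent.PBL
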