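import Pool.Agent.PBL.Stmts

/-! # PBL, module DET: the deterministic part -/

namespace Pool.Agent.PBL

open Finset

theorem t_det (hGRE : Stmt_GRE) (hPKX : Stmt_PKX) : Stmt_DET := by
  classical
  intro N n hn E hE G Θ ω hD hM hG
  have hcard : ∀ e ∈ E, 2 ≤ e.card := fun e he => by rw [hE e he]; exact hn
  rcases isEmpty_or_nonempty (Fin N) with hN | hN
  · have hno : ∀ e ∈ E, False := by
      intro e he
      have h1 := hcard e he
      have h2 : e = ∅ := Finset.eq_empty_of_isEmpty e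
      rw [h2] at h1
      simp at h1
    refine ⟨∅, fun v hv => ?_, fun e he => (hno e he).elim, fun g hg => (hno g hg).elim⟩
    simp at hv
  have hex : ∀ e : Finset (Fin N), ∃ u w v, 2 ≤ e.card →
      (Pick ω G e u w v ∧ v ∈ e ∧ (∀ a ∈ e, lv ω u ≤ lv ω a) ∧ lv ω v ≤ lv ω u + G) := by
    intro e
    by_cases h : 2 ≤ e.card
    · obtain ⟨u, w, v, h1⟩ := hPKX N n ω G e h
      exact ⟨u, w, v, fun _ => h1⟩
    · obtain ⟨x⟩ := hN
      exact ⟨x, x, x, fun h' => (h h').elim⟩
  choose u w pk hpk using hex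
  let M : Finset (Finset (Fin N)) := E.filter (fun e => ∀ v ∈ e, lv ω v < n)
  have hME : ∀ e ∈ M, e ∈ E ∧ ∀ v ∈ e, lv ω v < n := fun e he => Finset.mem_filter.1 he
  have hME' : ∀ e ∈ E, (∀ v ∈ e, lv ω v < n) → e ∈ M := fun e he h =>
    Finset.mem_filter.2 ⟨he, h⟩
  obtain ⟨R, wit, r1, r2, r3⟩ := hGRE N M (fun e => lv ω (u e)) pk
    (fun e he => (hpk e (hcard e (hME e he).1)).2.1)
  -- the first vertex of an edge inside `B` has level `< Θ`
  have hTh : ∀ e ∈ M, lv ω (u e) < Θ := by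
    intro e he
    by_contra hc
    refine hD ⟨e, (hME e he).1, fun v hv => ⟨?_, (hME e he).2 v hv⟩⟩
    have h1 := (hpk e (hcard e (hME e he).1)).2.2.1 v hv
    omega
  -- vertices of `R`
  have hR : ∀ v ∈ R, wit v ∈ M ∧ v ∈ wit v ∧ pk (wit v) = v ∧
      lv ω v ≤ lv ω (u (wit v)) + G := by
    intro v hv
    obtain ⟨h1, h2⟩ := r2 v hv
    have h3 := hpk (wit v) (hcard _ (hME _ h1).1)
    refine ⟨h1, ?_, h2, ?_⟩
    · have h4 := h3.2.1
      rw [h2] at h4
      exact h4
    · have h4 := h3.2.2.2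
      rw [h2] at h4
      exact h4
  refine ⟨R, ?_, ?_, ?_⟩
  · intro v hv
    obtain ⟨h1, h2, _, _⟩ := hR v hv
    exact (hME _ h1).2 v h2
  · intro e he hlt
    exact r1 e (hME' e he hlt)
  · intro g hg hgB
    by_contra hc
    have hall : ∀ v ∈ g, lv ω v < n → v ∈ R := by
      intro v hv hlt
      by_contra hvR
      exact hc ⟨v, hv, hlt, hvR⟩
    refine hG g hg ⟨hgB, fun v hv hlt => ?_⟩
    have hvR := hall v hv hlt
    obtain ⟨h1, h2, h3, h4⟩ := hR v hvR
    have h5 := hpk (wit v) (hcard _ (hME _ h1).1)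
    refine ⟨wit v, (hME _ h1).1, ?_, (hME _ h1).2, u (wit v), w (wit v), ?_, hTh _ h1⟩
    · by_contra hne
      have hvi : v ∈ wit v ∩ g := Finset.mem_inter.2 ⟨h2, hv⟩
      have hc2 : 2 ≤ (wit v ∩ g).card := by
        by_contra hlt2
        have h6 : (wit v ∩ g).card ≤ 1 := by omega
        have h7 : wit v ∩ g = {v} := by
          refine Finset.eq_singleton_iff_unique_mem.2 ⟨hvi, fun x hx => ?_⟩
          exact Finset.card_le_one.1 h6 x hx v hvi
        exact hne h7
      refine hM ⟨wit v, (hME _ h1).1, g, hg, hc2, lv ω (u (wit v)), hTh _ h1, ?_, ?_, ?_⟩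
      · intro x hx
        obtain ⟨hx1, hx2⟩ := Finset.mem_inter.1 hx
        refine ⟨h5.2.2.1 x hx1, ?_⟩
        by_cases hxv : x = v
        · rw [hxv]
          exact h4
        · have hxR := hall x hx2 ((hME _ h1).2 x hx1)
          have h8 := r3 v hvR x hxR hxv hx1
          have h9 := (hR x hxR).2.2.2
          omega
      · intro x hx
        have hx1 := (Finset.mem_sdiff.1 hx).1
        exact ⟨h5.2.2.1 x hx1, (hME _ h1).2 x hx1⟩
      · intro x hx
        have hx1 := (Finset.mem_sdiff.1 hx).1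
        by_cases hxn : n ≤ lv ω x
        · exact Or.inl hxn
        · right
          have hxR := hall x hx1 (by omega)
          obtain ⟨k1, _, _, k4⟩ := hR x hxR
          have k5 := hTh _ k1
          omega
    · have h6 := h5.1
      rw [h3] at h6
      exact h6

end Pool.Agent.PBL
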