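import Mathlib

/-!
# PBL: a lower bound for the Property B number (MP_5e7c84_co)

Definitions.  Vertices are `Fin N`, the uniformity is `n`.  A labelling `ω : Om N n` gives every
vertex a level in `[0, 2n)` and a laziness bit, all uniform and independent.  The vertices of level
`< n` are the side `B`, the others the side `C` (mirror image `l ↦ 2n-1-l`).
-/

namespace Pool.Agent.PBL

open Finset

/-- labels: a level in `[0,2n)` and a laziness bit -/
abbrev Lab (n : ℕ) : Type := Fin (2 * n) × Bool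

/-- labellings of the `N` vertices -/
abbrev Om (N n : ℕ) : Type := Fin N → Lab n

variable {N n : ℕ}

/-- level of a vertex -/
def lv (ω : Om N n) (v : Fin N) : ℕ := ((ω v).1 : ℕ)

/-- the vertex `v` is lazy -/
def lz (ω : Om N n) (v : Fin N) : Prop := (ω v).2 = true

/-- indicator of a proposition, a real number -/
noncomputable def ind (p : Prop) : ℝ := by classical exact if p then 1 else 0

/-- expectation over a uniform random labelling -/
noncomputable def Ex (f : Om N n → ℝ) : ℝ := (∑ ω, f ω) / (Fintype.card (Om N n) : ℝ)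

/-- probability over a uniform random labelling -/
noncomputable def Pr (p : Om N n → Prop) : ℝ := Ex (fun ω => ind (p ω))

/-- `u` comes before `v` in the order (level, vertex) -/
def before (ω : Om N n) (u v : Fin N) : Prop :=
  lv ω u < lv ω v ∨ (lv ω u = lv ω v ∧ u < v)

/-- `u` is the first and `w` the second vertex of `e` (in the order (level, vertex)), and `v` is the
vertex picked in `e`: the second one if the first is lazy and the gap is at most `G`,
otherwise the first. -/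
structure Pick (ω : Om N n) (G : ℕ) (e : Finset (Fin N)) (u w v : Fin N) : Prop where
  hu : u ∈ e
  hw : w ∈ e
  hne : w ≠ u
  top : ∀ a ∈ e, a ≠ u → before ω u a
  sec : ∀ a ∈ e, a ≠ u → a ≠ w → before ω w a
  pick : (lz ω u ∧ lv ω w ≤ lv ω u + G ∧ v = w) ∨ (¬ (lz ω u ∧ lv ω w ≤ lv ω u + G) ∧ v = u)

/-- the side `B` can be repaired: `R ⊆ B` meets every edge inside `B`, and no edge has its nonempty
trace on `B` inside `R` -/
def Good (E : Finset (Finset (Fin N))) (ω : Om N n) : Prop :=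
  ∃ R : Finset (Fin N),
    (∀ v ∈ R, lv ω v < n) ∧
    (∀ e ∈ E, (∀ v ∈ e, lv ω v < n) → ∃ v ∈ e, v ∈ R) ∧
    (∀ g ∈ E, (∃ v ∈ g, lv ω v < n) → ∃ v ∈ g, lv ω v < n ∧ v ∉ R)

/-- bad event: an edge inside `B` with all levels `≥ Θ` -/
def EvD (Θ : ℕ) (E : Finset (Finset (Fin N))) (ω : Om N n) : Prop :=
  ∃ e ∈ E, ∀ v ∈ e, Θ ≤ lv ω v ∧ lv ω v < n

/-- bad event: two edges with at least two common vertices in a bad position -/
def EvM (G Θ : ℕ) (E : Finset (Finset (Fin N))) (ω : Om N n) : Prop :=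
  ∃ e ∈ E, ∃ g ∈ E, 2 ≤ (e ∩ g).card ∧ ∃ t < Θ,
    (∀ v ∈ e ∩ g, t ≤ lv ω v ∧ lv ω v ≤ t + G) ∧
    (∀ v ∈ e \ g, t ≤ lv ω v ∧ lv ω v < n) ∧
    (∀ v ∈ g \ e, n ≤ lv ω v ∨ lv ω v < Θ + G)

/-- `v` is picked by an edge `e ⊆ B` meeting `g` only in `v`, whose first vertex has level `< Θ` -/
def Av (G Θ : ℕ) (E : Finset (Finset (Fin N))) (g : Finset (Fin N)) (ω : Om N n) (v : Fin N) :
    Prop :=
  ∃ e ∈ E, e ∩ g = {v} ∧ (∀ a ∈ e, lv ω a < n) ∧ ∃ u w, Pick ω G e u w v ∧ lv ω u < Θ

/-- bad event for the edge `g` -/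
def EvG (G Θ : ℕ) (E : Finset (Finset (Fin N))) (g : Finset (Fin N)) (ω : Om N n) : Prop :=
  (∃ v ∈ g, lv ω v < n) ∧ ∀ v ∈ g, lv ω v < n → Av G Θ E g ω v

open Classical in
/-- the family of the sets `e \ {v}`, for the edges `e` meeting `g` only in `v` -/
noncomputable def fam (E : Finset (Finset (Fin N))) (g : Finset (Fin N)) (v : Fin N) :
    Finset (Finset (Fin N)) :=
  (E.filter (fun e => e ∩ g = {v})).image (fun e => e.erase v)

/-- all levels of `A` are in `[j, n)` -/
def al (ω : Om N n) (j : ℕ) (A : Finset (Fin N)) : Prop := ∀ a ∈ A, j ≤ lv ω a ∧ lv ω a < n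

open Classical in
/-- the sets of the family alive at `j` -/
noncomputable def alv (F : Finset (Finset (Fin N))) (ω : Om N n) (j : ℕ) :
    Finset (Finset (Fin N)) := F.filter (fun A => al ω j A)

/-- the number of sets of the family alive at `j` -/
noncomputable def Nc (F : Finset (Finset (Fin N))) (ω : Om N n) (j : ℕ) : ℕ := (alv F ω j).card

/-- the union of the sets alive at `j` -/
noncomputable def un (F : Finset (Finset (Fin N))) (ω : Om N n) (j : ℕ) : Finset (Fin N) :=
  (alv F ω j).biUnion id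

/-- there is an active zombie at level `i` -/
def zom (F : Finset (Finset (Fin N))) (ω : Om N n) (G Θ i : ℕ) : Prop :=
  ∃ A ∈ F, ∃ u ∈ A, lz ω u ∧ lv ω u ≤ i ∧ i ≤ lv ω u + G ∧ lv ω u < Θ ∧
    ∀ a ∈ A, a ≠ u → i ≤ lv ω a ∧ lv ω a < n

open Classical in
/-- upper bound for the (laziness) probability that a vertex of level `i` is picked -/
noncomputable def sb (F : Finset (Finset (Fin N))) (ω : Om N n) (G Θ i : ℕ) : ℝ :=
  if zom F ω G Θ i then 1
  else if 1 ≤ Nc F ω i ∧ i < Θ then (if Nc F ω (i + G + 1) = 0 then 1 / 2 else 1)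
  else 0

/-- the sum of the upper bounds -/
noncomputable def zb (F : Finset (Finset (Fin N))) (ω : Om N n) (G Θ : ℕ) : ℝ :=
  ∑ i ∈ range n, sb F ω G Θ i

/-- some `A ∈ F` has a vertex `u` of level in `I`, all its other vertices having level in `[m,n)` -/
def ZD (F : Finset (Finset (Fin N))) (ω : Om N n) (I : Finset ℕ) (m : ℕ) : Prop :=
  ∃ A ∈ F, ∃ u ∈ A, lv ω u ∈ I ∧ ∀ a ∈ A, a ≠ u → m ≤ lv ω a ∧ lv ω a < n

/-- the unclean zombie event at level `i` -/
def UncZ (F : Finset (Finset (Fin N))) (ω : Om N n) (G i : ℕ) : Prop :=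
  Nc F ω i = 0 ∧ ∃ A ∈ F, ∃ u ∈ A, lv ω u < i ∧ i ≤ lv ω u + G ∧
    (∀ a ∈ A, a ≠ u → i ≤ lv ω a ∧ lv ω a < n) ∧
    ∃ A' ∈ F, al ω (i - 3 * G) A' ∧ ∃ a ∈ A', a ≠ u ∧ lv ω a < i

/-- the light hit event at level `i` -/
def LE (F : Finset (Finset (Fin N))) (ω : Om N n) (G K i : ℕ) : Prop :=
  1 ≤ Nc F ω i ∧ Nc F ω i < Nc F ω (i - 3 * G) ∧ Nc F ω (i - 3 * G) < K

open Classical in
/-- the sets of the family alive at `j` when `A` is immortal -/
noncomputable def alA (F : Finset (Finset (Fin N))) (A : Finset (Fin N)) (ω : Om N n) (j : ℕ) :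
    Finset (Finset (Fin N)) := F.filter (fun A' => al ω j (A' \ A))

/-- their number -/
noncomputable def NA (F : Finset (Finset (Fin N))) (A : Finset (Fin N)) (ω : Om N n) (j : ℕ) : ℕ :=
  (alA F A ω j).card

/-- their total distance from `A`, divided by `n - j` -/
noncomputable def kap (F : Finset (Finset (Fin N))) (A : Finset (Fin N)) (ω : Om N n) (j : ℕ) :
    ℝ := (∑ A' ∈ alA F A ω j, ((A' \ A).card : ℝ)) / ((n : ℝ) - j)

/-- the weight `1[N_i < K] / N_i`, for the immortal set `A` -/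
noncomputable def psi (F : Finset (Finset (Fin N))) (A : Finset (Fin N)) (K : ℕ) (ω : Om N n)
    (i : ℕ) : ℝ := ind (NA F A ω i < K) / (NA F A ω i : ℝ)

/-- harmonic numbers -/
noncomputable def Hm (K : ℕ) : ℝ := ∑ l ∈ range K, 1 / ((l : ℝ) + 1)

/-- expected size scale of the family: `|F| / 2^(n-1)` -/
noncomputable def mu (n : ℕ) (F : Finset (Finset (Fin N))) : ℝ := (F.card : ℝ) / 2 ^ (n - 1)

end Pool.Agent.PBL
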