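import Pool.Agent.PBL.Stmts

/-!
# PBL (MP_5e7c84_co), module GRE: abstract greedy algorithm
-/

set_option autoImplicit false

namespace Pool.Agent.PBL

open Finset

theorem t_gre : Stmt_GRE := by
  intro N M t pk
  induction h : M.card using Nat.strong_induction_on generalizing M with
  | _ c ih =>
  intro hpk
  rcases M.eq_empty_or_nonempty with hM | hM
  · refine ⟨∅, fun _ => ∅, ?_, ?_, ?_⟩
    · intro e he
      rw [hM] at he
      exact absurd he (notMem_empty _)
    · intro v hv
      exact absurd hv (notMem_empty _)
    · intro v hv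
      exact absurd hv (notMem_empty _)
  · obtain ⟨e0, he0, hmin⟩ := exists_min_image M t hM
    obtain ⟨R', wit', h1, h2, h3⟩ := ih (M.erase e0).card
      (by rw [← h]; exact card_erase_lt_of_mem he0) (M.erase e0) rfl
      (fun e he => hpk e (mem_of_mem_erase he))
    by_cases hit : ∃ v ∈ e0, v ∈ R'
    · refine ⟨R', wit', ?_, ?_, h3⟩
      · intro e he
        by_cases hee : e = e0
        · rw [hee]
          exact hit
        · exact h1 e (mem_erase.2 ⟨hee, he⟩)
      · intro v hv
        exact ⟨mem_of_mem_erase (h2 v hv).1, (h2 v hv).2⟩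
    · have hnot : pk e0 ∉ R' := fun hh => hit ⟨pk e0, hpk e0 he0, hh⟩
      have hne : ∀ v ∈ R', v ≠ pk e0 := fun v hv hh => hnot (hh ▸ hv)
      have hw0 : Function.update wit' (pk e0) e0 (pk e0) = e0 := Function.update_self _ _ _
      have hw : ∀ v ∈ R', Function.update wit' (pk e0) e0 v = wit' v :=
        fun v hv => Function.update_of_ne (hne v hv) _ _
      refine ⟨insert (pk e0) R', Function.update wit' (pk e0) e0, ?_, ?_, ?_⟩
      · intro e he
        by_cases hee : e = e0
        · rw [hee]
          exact ⟨pk e0, hpk e0 he0, mem_insert_self _ _⟩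
        · obtain ⟨v, hv, hvR⟩ := h1 e (mem_erase.2 ⟨hee, he⟩)
          exact ⟨v, hv, mem_insert_of_mem hvR⟩
      · intro v hv
        rcases mem_insert.1 hv with hv | hv
        · rw [hv, hw0]
          exact ⟨he0, rfl⟩
        · rw [hw v hv]
          exact ⟨mem_of_mem_erase (h2 v hv).1, (h2 v hv).2⟩
      · intro v hv v' hv' hvv hmem
        rcases mem_insert.1 hv with hv | hv
        · exfalso
          rw [hv, hw0] at hmem
          rcases mem_insert.1 hv' with hv' | hv'
          · exact hvv (hv'.trans hv.symm)
          · exact hit ⟨v', hmem, hv'⟩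
        · rw [hw v hv] at hmem ⊢
          rcases mem_insert.1 hv' with hv' | hv'
          · rw [hv', hw0]
            exact hmin _ (mem_of_mem_erase (h2 v hv).1)
          · rw [hw v' hv']
            exact h3 v hv v' hv' hvv hmem

end Pool.Agent.PBL
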