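import Pool.Agent.PBL.Stmts

/-!
# PBL (MP_5e7c84_co), module IND: independence
-/

set_option autoImplicit false

namespace Pool.Agent.PBL

open Finset

namespace IND_

variable {N n : ℕ}

/-- `ω` on `S`, `ω'` outside -/
def mix (S : Finset (Fin N)) (ω ω' : Om N n) : Om N n := fun v => if v ∈ S then ω v else ω' v

theorem mix_mix (S : Finset (Fin N)) (ω ω' : Om N n) :
    mix S (mix S ω ω') (mix S ω' ω) = ω := by
  funext v
  by_cases h : v ∈ S
  · simp [mix, h]
  · simp [mix, h]

/-- exchange of the coordinates outside `S` -/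
def swp (S : Finset (Fin N)) : (Om N n × Om N n) ≃ (Om N n × Om N n) where
  toFun p := (mix S p.1 p.2, mix S p.2 p.1)
  invFun p := (mix S p.1 p.2, mix S p.2 p.1)
  left_inv p := by
    obtain ⟨a, b⟩ := p
    show (mix S (mix S a b) (mix S b a), mix S (mix S b a) (mix S a b)) = (a, b)
    rw [mix_mix, mix_mix]
  right_inv p := by
    obtain ⟨a, b⟩ := p
    show (mix S (mix S a b) (mix S b a), mix S (mix S b a) (mix S a b)) = (a, b)
    rw [mix_mix, mix_mix]

end IND_

open IND_ in
theorem t_ind : Stmt_IND := by
  intro N n hn S F H hF hH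
  have h1 : (∑ ω : Om N n, F ω) * (∑ ω : Om N n, H ω) =
      (Fintype.card (Om N n) : ℝ) * ∑ ω : Om N n, F ω * H ω := by
    calc (∑ ω : Om N n, F ω) * (∑ ω : Om N n, H ω)
        = ∑ p : Om N n × Om N n, F p.1 * H p.2 := by
          rw [Finset.sum_mul_sum, Fintype.sum_prod_type]
      _ = ∑ p : Om N n × Om N n, F (swp S p).1 * H (swp S p).1 := by
          apply Finset.sum_congr rfl
          intro p _
          have h2 : F (swp S p).1 = F p.1 := by
            apply hF
            intro v hv
            simp [swp, mix, hv]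
          have h3 : H (swp S p).1 = H p.2 := by
            apply hH
            intro v hv
            simp [swp, mix, hv]
          rw [h2, h3]
      _ = ∑ p : Om N n × Om N n, F p.1 * H p.1 :=
          Equiv.sum_comp (swp S) (fun p : Om N n × Om N n => F p.1 * H p.1)
      _ = (Fintype.card (Om N n) : ℝ) * ∑ ω : Om N n, F ω * H ω := by
          rw [Fintype.sum_prod_type, Finset.mul_sum]
          apply Finset.sum_congr rfl
          intro ω _
          show ∑ _y : Om N n, F ω * H ω = _
          rw [Finset.sum_const, Finset.card_univ, nsmul_eq_mul]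
  have hc := card_Om_pos (N := N) hn
  unfold Ex
  rw [div_mul_div_comm, h1, mul_div_mul_left _ _ hc.ne']

end Pool.Agent.PBL
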