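import Pool.Agent.PBL.Stmts

/-!
# PBL, module KEA: expectation of the deterministic bound
-/

namespace Pool.Agent.PBL

open Finset

namespace KEA_

variable {N n : ℕ}

theorem first (hFMA : Stmt_FMA) (hn : 2 ≤ n) (F : Finset (Finset (Fin N))) (hF : ∀ A ∈ F, A.card = n - 1)
    (j : ℕ) (hj : 4 * j ≤ n) :
    Pr (fun ω : Om N n => 1 ≤ Nc F ω j) ≤ 2 * mu n F * Real.exp (-(j : ℝ)) := by
  have h1 := markov (fun ω : Om N n => Nc F ω j) 1
  rw [Nat.cast_one, one_mul] at h1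
  exact h1.trans (hFMA N n hn F hF j hj)

theorem exp_mul_exp (a b c : ℝ) (h : a + b = c) : Real.exp a * Real.exp b = Real.exp c := by
  rw [← Real.exp_add, h]

end KEA_

open KEA_

theorem t_kea (hZBD : Stmt_ZBD) (hFMA : Stmt_FMA) (hFMZ : Stmt_FMZ) (hGSM : Stmt_GSM) : Stmt_KEA := by
  intro N n F hF G Θ hG hΘ hn
  have hn2 : 2 ≤ n := by omega
  have hmu := mu_nonneg n F
  have h0 : Ex (fun ω : Om N n => Real.exp (zb F ω G Θ) - 1) ≤ Ex (fun ω : Om N n =>
      Real.exp Θ * ind (1 ≤ Nc F ω Θ) +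
      ∑ l ∈ Ico Θ (Θ + G), Real.exp ((l : ℝ) + 1) * ind (zom F ω G Θ l) +
      ∑ d ∈ range Θ, Real.exp ((d : ℝ) + 1 - (min G d : ℕ) / 2) * ind (1 ≤ Nc F ω d) +
      ∑ d ∈ range Θ, ∑ m ∈ Ioc d (d + G),
        Real.exp ((m : ℝ) + 1 - (min G d : ℕ) / 2) * ind (ZD F ω {d} m) +
      ∑ i ∈ range (Θ + G), Real.exp ((i : ℝ) + 1) *
        (ind (1 ≤ Nc F ω i ∧ Nc F ω i < Nc F ω (i - 3 * G)) + ind (UncZ F ω G i))) :=
    Ex_mono (fun ω => hZBD N n hn2 F hF G Θ ω hG (by omega))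
  refine h0.trans ?_
  rw [Ex_add, Ex_add, Ex_add, Ex_add, Ex_const_mul, Ex_sum, Ex_sum, Ex_sum, Ex_sum]
  -- first term
  have t1 : Real.exp Θ * Ex (fun ω : Om N n => ind (1 ≤ Nc F ω Θ)) ≤ 2 * mu n F := by
    have h := first hFMA hn2 F hF Θ (by omega)
    unfold Pr at h
    calc Real.exp Θ * Ex (fun ω : Om N n => ind (1 ≤ Nc F ω Θ)) ≤
        Real.exp Θ * (2 * mu n F * Real.exp (-(Θ : ℝ))) := mul_le_mul_of_nonneg_left h (Real.exp_pos _).le
      _ = 2 * mu n F * (Real.exp Θ * Real.exp (-(Θ : ℝ))) := by ring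
      _ = 2 * mu n F := by rw [exp_mul_exp _ _ 0 (by ring), Real.exp_zero, mul_one]
  -- second term
  have t2 : ∑ l ∈ Ico Θ (Θ + G), Ex (fun ω : Om N n => Real.exp ((l : ℝ) + 1) * ind (zom F ω G Θ l)) ≤
      2 * Real.exp 1 * G * (G + 1) * mu n F := by
    have h1 : ∀ l ∈ Ico Θ (Θ + G), Ex (fun ω : Om N n => Real.exp ((l : ℝ) + 1) * ind (zom F ω G Θ l)) ≤
        2 * Real.exp 1 * (G + 1) * mu n F := by
      intro l hl
      rw [Finset.mem_Ico] at hl
      rw [Ex_const_mul]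
      have h2 : Ex (fun ω : Om N n => ind (zom F ω G Θ l)) ≤
          ((Icc (l - G) l).card : ℝ) * (2 * mu n F * Real.exp (-(l : ℝ))) := by
        refine le_trans ?_ (hFMZ N n hn2 F hF (Icc (l - G) l) l (by omega))
        unfold Pr
        refine Ex_mono (fun ω => ind_mono ?_)
        rintro ⟨A, hA, u, hu, _, h3, h4, _, h5⟩
        exact ⟨A, hA, u, hu, Finset.mem_Icc.2 ⟨by omega, h3⟩, h5⟩
      have h3 : ((Icc (l - G) l).card : ℝ) ≤ (G : ℝ) + 1 := by
        rw [Nat.card_Icc]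
        have : l + 1 - (l - G) ≤ G + 1 := by omega
        exact_mod_cast this
      have h4 : Ex (fun ω : Om N n => ind (zom F ω G Θ l)) ≤ ((G : ℝ) + 1) * (2 * mu n F * Real.exp (-(l : ℝ))) :=
        h2.trans (mul_le_mul_of_nonneg_right h3 (by positivity))
      calc Real.exp ((l : ℝ) + 1) * Ex (fun ω : Om N n => ind (zom F ω G Θ l)) ≤
          Real.exp ((l : ℝ) + 1) * (((G : ℝ) + 1) * (2 * mu n F * Real.exp (-(l : ℝ)))) :=
            mul_le_mul_of_nonneg_left h4 (Real.exp_pos _).le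
        _ = 2 * (Real.exp ((l : ℝ) + 1) * Real.exp (-(l : ℝ))) * (G + 1) * mu n F := by ring
        _ = _ := by rw [exp_mul_exp _ _ 1 (by ring)]
    refine (Finset.sum_le_sum h1).trans (le_of_eq ?_)
    rw [Finset.sum_const, Nat.card_Ico, nsmul_eq_mul, Nat.add_sub_cancel_left]
    ring
  -- third term
  have t3 : ∑ d ∈ range Θ, Ex (fun ω : Om N n => Real.exp ((d : ℝ) + 1 - (min G d : ℕ) / 2) *
      ind (1 ≤ Nc F ω d)) ≤ 8 * Real.exp 1 * mu n F := by
    have h1 : ∀ d ∈ range Θ, Ex (fun ω : Om N n => Real.exp ((d : ℝ) + 1 - (min G d : ℕ) / 2) *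
        ind (1 ≤ Nc F ω d)) ≤ 2 * Real.exp 1 * mu n F * Real.exp (-((min G d : ℕ) / 2 : ℝ)) := by
      intro d hd
      rw [Finset.mem_range] at hd
      rw [Ex_const_mul]
      have h := first hFMA hn2 F hF d (by omega)
      unfold Pr at h
      calc _ ≤ Real.exp ((d : ℝ) + 1 - (min G d : ℕ) / 2) * (2 * mu n F * Real.exp (-(d : ℝ))) :=
            mul_le_mul_of_nonneg_left h (Real.exp_pos _).le
        _ = 2 * mu n F * (Real.exp ((d : ℝ) + 1 - (min G d : ℕ) / 2) * Real.exp (-(d : ℝ))) := by ring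
        _ = 2 * mu n F * (Real.exp 1 * Real.exp (-((min G d : ℕ) / 2 : ℝ))) := by
          rw [exp_mul_exp _ _ (1 + -((min G d : ℕ) / 2 : ℝ)) (by ring), ← exp_mul_exp 1 _ _ rfl]
        _ = _ := by ring
    refine (Finset.sum_le_sum h1).trans ?_
    rw [← Finset.mul_sum]
    have := mul_le_mul_of_nonneg_left (hGSM G Θ hΘ) (by positivity : 0 ≤ 2 * Real.exp 1 * mu n F)
    linarith
  -- fourth term
  have t4 : ∑ d ∈ range Θ, Ex (fun ω : Om N n => ∑ m ∈ Ioc d (d + G),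
      Real.exp ((m : ℝ) + 1 - (min G d : ℕ) / 2) * ind (ZD F ω {d} m)) ≤ 8 * Real.exp 1 * G * mu n F := by
    have h1 : ∀ d ∈ range Θ, Ex (fun ω : Om N n => ∑ m ∈ Ioc d (d + G),
        Real.exp ((m : ℝ) + 1 - (min G d : ℕ) / 2) * ind (ZD F ω {d} m)) ≤
        G * (2 * Real.exp 1 * mu n F) * Real.exp (-((min G d : ℕ) / 2 : ℝ)) := by
      intro d hd
      rw [Finset.mem_range] at hd
      rw [Ex_sum]
      have h2 : ∀ m ∈ Ioc d (d + G), Ex (fun ω : Om N n => Real.exp ((m : ℝ) + 1 - (min G d : ℕ) / 2) *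
          ind (ZD F ω {d} m)) ≤ (2 * Real.exp 1 * mu n F) * Real.exp (-((min G d : ℕ) / 2 : ℝ)) := by
        intro m hm
        rw [Finset.mem_Ioc] at hm
        rw [Ex_const_mul]
        have h := hFMZ N n hn2 F hF {d} m (by omega)
        rw [Finset.card_singleton, Nat.cast_one, one_mul] at h
        unfold Pr at h
        calc _ ≤ Real.exp ((m : ℝ) + 1 - (min G d : ℕ) / 2) * (2 * mu n F * Real.exp (-(m : ℝ))) :=
              mul_le_mul_of_nonneg_left h (Real.exp_pos _).le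
          _ = 2 * mu n F * (Real.exp ((m : ℝ) + 1 - (min G d : ℕ) / 2) * Real.exp (-(m : ℝ))) := by ring
          _ = 2 * mu n F * (Real.exp 1 * Real.exp (-((min G d : ℕ) / 2 : ℝ))) := by
            rw [exp_mul_exp _ _ (1 + -((min G d : ℕ) / 2 : ℝ)) (by ring), ← exp_mul_exp 1 _ _ rfl]
          _ = _ := by ring
      refine (Finset.sum_le_sum h2).trans (le_of_eq ?_)
      rw [Finset.sum_const, Nat.card_Ioc, nsmul_eq_mul, Nat.add_sub_cancel_left]
      ring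
    refine (Finset.sum_le_sum h1).trans ?_
    rw [← Finset.mul_sum]
    have := mul_le_mul_of_nonneg_left (hGSM G Θ hΘ) (by positivity : 0 ≤ G * (2 * Real.exp 1 * mu n F))
    linarith
  -- fifth term
  have t5 : ∑ i ∈ range (Θ + G), Ex (fun ω : Om N n => Real.exp ((i : ℝ) + 1) *
        (ind (1 ≤ Nc F ω i ∧ Nc F ω i < Nc F ω (i - 3 * G)) + ind (UncZ F ω G i))) =
      ∑ i ∈ range (Θ + G), Real.exp ((i : ℝ) + 1) *
        (Pr (fun ω : Om N n => 1 ≤ Nc F ω i ∧ Nc F ω i < Nc F ω (i - 3 * G)) +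
          Pr (fun ω : Om N n => UncZ F ω G i)) := by
    refine Finset.sum_congr rfl (fun i _ => ?_)
    rw [Ex_const_mul, Ex_add]
    rfl
  rw [t5]
  linarith

end Pool.Agent.PBL
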