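import Pool.Agent.PBL.Stmts

/-!
# PBL, module KEY: the key lemma
-/

namespace Pool.Agent.PBL

open Finset

theorem t_key (hKEA : Stmt_KEA) (hKEB : Stmt_KEB) (hHMK : Stmt_HMK) : Stmt_KEY := by
  intro N n F hF G Θ hG hΘ hn
  obtain ⟨K, hK, hHm⟩ := hHMK G Θ hG hΘ
  have h1 := hKEA N n F hF G Θ hG hΘ hn
  have h2 := hKEB N n F hF G K (Θ + G) hG hn (by omega) hK
  have hG1 : (1 : ℝ) ≤ G := by exact_mod_cast hG
  have he := Real.exp_one_lt_d9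
  have he0 := Real.exp_pos 1
  have hmu := mu_nonneg n F
  refine h1.trans ?_
  have h3 : (2 + 2 * Real.exp 1 * G * (G + 1) + 8 * Real.exp 1 * (G + 1)) +
      (4 * Real.exp 1 + 42 * Real.exp 1 * G ^ 2 * Hm K) ≤ 760 * (G : ℝ) ^ 3 := by
    have hG2 : (G : ℝ) ≤ (G : ℝ) ^ 3 := by nlinarith [sq_nonneg ((G : ℝ)), mul_pos (by linarith : (0:ℝ) < G) (by linarith : (0:ℝ) < G)]
    have hG3 : (G : ℝ) ^ 2 ≤ (G : ℝ) ^ 3 := pow_le_pow_right₀ hG1 (by norm_num)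
    have hG4 : (1 : ℝ) ≤ (G : ℝ) ^ 3 := one_le_pow₀ hG1
    have h4 : 42 * Real.exp 1 * (G : ℝ) ^ 2 * Hm K ≤ 252 * Real.exp 1 * (G : ℝ) ^ 3 := by
      have : 42 * Real.exp 1 * (G : ℝ) ^ 2 * Hm K ≤ 42 * Real.exp 1 * (G : ℝ) ^ 2 * (6 * G) :=
        mul_le_mul_of_nonneg_left hHm (by positivity)
      calc _ ≤ 42 * Real.exp 1 * (G : ℝ) ^ 2 * (6 * G) := this
        _ = _ := by ring
    have h5 : 2 * Real.exp 1 * (G : ℝ) * (G + 1) ≤ 4 * Real.exp 1 * (G : ℝ) ^ 3 := by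
      have : (G : ℝ) * (G + 1) ≤ 2 * (G : ℝ) ^ 3 := by nlinarith
      calc 2 * Real.exp 1 * (G : ℝ) * (G + 1) = 2 * Real.exp 1 * ((G : ℝ) * (G + 1)) := by ring
        _ ≤ 2 * Real.exp 1 * (2 * (G : ℝ) ^ 3) := mul_le_mul_of_nonneg_left this (by positivity)
        _ = _ := by ring
    have h6 : 8 * Real.exp 1 * ((G : ℝ) + 1) ≤ 16 * Real.exp 1 * (G : ℝ) ^ 3 := by
      have : (G : ℝ) + 1 ≤ 2 * (G : ℝ) ^ 3 := by linarith
      calc 8 * Real.exp 1 * ((G : ℝ) + 1) ≤ 8 * Real.exp 1 * (2 * (G : ℝ) ^ 3) :=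
            mul_le_mul_of_nonneg_left this (by positivity)
        _ = _ := by ring
    have h7 : 4 * Real.exp 1 ≤ 4 * Real.exp 1 * (G : ℝ) ^ 3 := le_mul_of_one_le_right (by positivity) hG4
    have h8 : 276 * Real.exp 1 * (G : ℝ) ^ 3 ≤ 758 * (G : ℝ) ^ 3 :=
      mul_le_mul_of_nonneg_right (by linarith) (by positivity)
    linarith
  calc (2 + 2 * Real.exp 1 * G * (G + 1) + 8 * Real.exp 1 * (G + 1)) * mu n F + _ ≤
      (2 + 2 * Real.exp 1 * G * (G + 1) + 8 * Real.exp 1 * (G + 1)) * mu n F +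
        (4 * Real.exp 1 + 42 * Real.exp 1 * G ^ 2 * Hm K) * mu n F := by linarith [h2]
    _ = ((2 + 2 * Real.exp 1 * G * (G + 1) + 8 * Real.exp 1 * (G + 1)) +
        (4 * Real.exp 1 + 42 * Real.exp 1 * G ^ 2 * Hm K)) * mu n F := by ring
    _ ≤ 760 * (G : ℝ) ^ 3 * mu n F := mul_le_mul_of_nonneg_right h3 hmu

end Pool.Agent.PBL
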