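import Pool.Agent.PBL.Stmts

/-! Module LGT: total of the light part. -/

namespace Pool.Agent.PBL

open Finset

namespace LGT_

variable {N n : ℕ}

/-- numerical factor -/
theorem pow_bound (n i : ℕ) (hn : 2 ≤ n) (hi : 4 * i ≤ n) :
    Real.exp ((i : ℝ) + 1) * (((n : ℝ) - i) / (2 * n)) ^ (n - 1) ≤
      2 * Real.exp 1 / 2 ^ (n - 1) := by
  have hn0 : (0 : ℝ) < n := by exact_mod_cast (by omega : 0 < n)
  have hi' : (4 : ℝ) * i ≤ n := by exact_mod_cast hi
  have hi0 : (0 : ℝ) ≤ i := Nat.cast_nonneg i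
  have h1 : ((n : ℝ) - i) / (2 * n) = (1 - (i : ℝ) / n) / 2 := by
    field_simp
  rw [h1, div_pow]
  have h2 : 1 - (i : ℝ) / n ≤ Real.exp (-((i : ℝ) / n)) := by
    have := Real.add_one_le_exp (-((i : ℝ) / n))
    linarith
  have h3 : 0 ≤ 1 - (i : ℝ) / n := by
    have : (i : ℝ) / n ≤ 1 := by
      rw [div_le_one hn0]; linarith
    linarith
  have h4 : (1 - (i : ℝ) / n) ^ (n - 1) ≤ Real.exp (-((i : ℝ) / n)) ^ (n - 1) :=
    pow_le_pow_left₀ h3 h2 _
  have h5 : Real.exp (-((i : ℝ) / n)) ^ (n - 1) = Real.exp (-(i : ℝ) + (i : ℝ) / n) := by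
    rw [← Real.exp_nat_mul]
    congr 1
    have : ((n - 1 : ℕ) : ℝ) = (n : ℝ) - 1 := by
      rw [Nat.cast_sub (by omega)]; simp
    rw [this]
    field_simp
    ring
  have h6 : Real.exp ((i : ℝ) + 1) * Real.exp (-(i : ℝ) + (i : ℝ) / n) ≤ 2 * Real.exp 1 := by
    rw [← Real.exp_add]
    have h7 : (i : ℝ) / n ≤ 1 / 4 := by
      rw [div_le_iff₀ hn0]; linarith
    have h8 : Real.exp ((i : ℝ) + 1 + (-(i : ℝ) + (i : ℝ) / n)) ≤ Real.exp (1 / 4 + 1) := by
      apply Real.exp_le_exp.2; linarith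
    have h9 : Real.exp (1 / 4 : ℝ) ≤ 2 := by
      have h10 : Real.exp (1 / 4 : ℝ) ≤ Real.exp (Real.log 2) := by
        apply Real.exp_le_exp.2
        have := Real.log_two_gt_d9
        linarith
      rwa [Real.exp_log (by norm_num)] at h10
    calc Real.exp ((i : ℝ) + 1 + (-(i : ℝ) + (i : ℝ) / n)) ≤ Real.exp (1 / 4 + 1) := h8
      _ = Real.exp (1 / 4) * Real.exp 1 := by rw [Real.exp_add]
      _ ≤ 2 * Real.exp 1 := by
        exact mul_le_mul_of_nonneg_right h9 (Real.exp_pos 1).le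
  have h2p : (0 : ℝ) < 2 ^ (n - 1) := by positivity
  rw [← mul_div_assoc]
  apply div_le_div_of_nonneg_right _ h2p.le
  calc Real.exp ((i : ℝ) + 1) * (1 - (i : ℝ) / n) ^ (n - 1)
      ≤ Real.exp ((i : ℝ) + 1) * Real.exp (-(i : ℝ) + (i : ℝ) / n) := by
        rw [← h5]
        exact mul_le_mul_of_nonneg_left h4 (Real.exp_pos _).le
    _ ≤ 2 * Real.exp 1 := h6

/-- the bracket -/
noncomputable def Y (F : Finset (Finset (Fin N))) (A : Finset (Fin N)) (G K : ℕ) (i : ℕ)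
    (ω : Om N n) : ℝ :=
  ind (NA F A ω i < NA F A ω (i - 3 * G) ∧ NA F A ω (i - 3 * G) < K) *
            (1 + G * (((n : ℝ) - 1) / ((n : ℝ) - i) + kap F A ω i)) / (NA F A ω i : ℝ)

theorem kap_nonneg (F : Finset (Finset (Fin N))) (A : Finset (Fin N)) (ω : Om N n) (i : ℕ)
    (hi : i ≤ n) : 0 ≤ kap F A ω i := by
  unfold kap
  apply div_nonneg
  · exact Finset.sum_nonneg (fun _ _ => Nat.cast_nonneg _)
  · have : (i : ℝ) ≤ n := by exact_mod_cast hi
    linarith

theorem Y_le (hn : 2 ≤ n) (F : Finset (Finset (Fin N))) (A : Finset (Fin N)) (hA : A ∈ F)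
    (G K i : ℕ) (hi : 4 * i ≤ n) (ω : Om N n) :
    Y F A G K i ω ≤ (1 + 2 * (G : ℝ)) *
        (ind (NA F A ω i < NA F A ω (i - 3 * G) ∧ NA F A ω (i - 3 * G) < K) / (NA F A ω i : ℝ)) +
      G * (kap F A ω i * psi F A K ω i) := by
  have hNA : (1 : ℝ) ≤ (NA F A ω i : ℝ) := by exact_mod_cast one_le_NA hA ω i
  have hNA0 : (0 : ℝ) < (NA F A ω i : ℝ) := by linarith
  have hn0 : (0 : ℝ) < n := by exact_mod_cast (by omega : 0 < n)
  have hi' : (4 : ℝ) * i ≤ n := by exact_mod_cast hi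
  have hi0 : (0 : ℝ) ≤ i := Nat.cast_nonneg i
  have hk := kap_nonneg F A ω i (by omega : i ≤ n)
  have hG0 : (0 : ℝ) ≤ G := Nat.cast_nonneg G
  have hr : ((n : ℝ) - 1) / ((n : ℝ) - i) ≤ 2 := by
    rw [div_le_iff₀ (by linarith)]
    linarith
  unfold Y psi
  by_cases hh : NA F A ω i < NA F A ω (i - 3 * G) ∧ NA F A ω (i - 3 * G) < K
  · have h2 : NA F A ω i < K := lt_trans hh.1 hh.2
    rw [ind_pos hh, ind_pos h2]
    have e1 : (1 + 2 * (G : ℝ)) * (1 / (NA F A ω i : ℝ)) + G * (kap F A ω i * (1 / (NA F A ω i : ℝ)))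
        = (1 + 2 * (G : ℝ) + G * kap F A ω i) / (NA F A ω i : ℝ) := by ring
    rw [e1]
    apply div_le_div_of_nonneg_right _ hNA0.le
    have : (G : ℝ) * (((n : ℝ) - 1) / ((n : ℝ) - i)) ≤ G * 2 := mul_le_mul_of_nonneg_left hr hG0
    nlinarith
  · rw [ind_neg hh]
    have h3 : 0 ≤ ind (NA F A ω i < K) / (NA F A ω i : ℝ) := div_nonneg (ind_nonneg _) hNA0.le
    have h4 : 0 ≤ (G : ℝ) * (kap F A ω i * (ind (NA F A ω i < K) / (NA F A ω i : ℝ))) :=
      mul_nonneg hG0 (mul_nonneg hk h3)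
    simpa using h4

theorem Ex_Y (hPTA : Stmt_PTA) (hPTB : Stmt_PTB) (hRES : Stmt_RES)
    (hn : 2 ≤ n) (F : Finset (Finset (Fin N))) (hF : ∀ A ∈ F, A.card = n - 1)
    (A : Finset (Fin N)) (hA : A ∈ F)
    (G K T : ℕ) (hG : 1 ≤ G) (hT : 4 * T ≤ n) :
    ∑ i ∈ range T, Ex (fun ω : Om N n => Y F A G K i ω) ≤ 21 * (G : ℝ) ^ 2 * Hm K := by
  have hG1 : (1 : ℝ) ≤ G := by exact_mod_cast hG
  have hH := Hm_nonneg K
  have hn1 : 1 ≤ n := by omega
  -- first part
  have s1 : ∑ i ∈ range T, Ex (fun ω : Om N n => Y F A G K i ω) ≤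
      ∑ i ∈ range T, ((1 + 2 * (G : ℝ)) * Ex (fun ω : Om N n =>
        ind (NA F A ω i < NA F A ω (i - 3 * G) ∧ NA F A ω (i - 3 * G) < K) / (NA F A ω i : ℝ)) +
      G * Ex (fun ω : Om N n => kap F A ω i * psi F A K ω i)) := by
    apply Finset.sum_le_sum
    intro i hi
    rw [Finset.mem_range] at hi
    rw [← Ex_const_mul, ← Ex_const_mul, ← Ex_add]
    exact Ex_mono (fun ω => Y_le hn F A hA G K i (by omega) ω)
  have s2 : ∑ i ∈ range T, Ex (fun ω : Om N n =>
        ind (NA F A ω i < NA F A ω (i - 3 * G) ∧ NA F A ω (i - 3 * G) < K) / (NA F A ω i : ℝ)) ≤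
      6 * G * Hm K := by
    rw [← Ex_sum]
    calc Ex (fun ω : Om N n => ∑ i ∈ range T,
        ind (NA F A ω i < NA F A ω (i - 3 * G) ∧ NA F A ω (i - 3 * G) < K) / (NA F A ω i : ℝ))
        ≤ Ex (fun _ : Om N n => 6 * G * Hm K) := by
          apply Ex_mono
          intro ω
          have := hPTA (fun j => NA F A ω j) (fun a b hab => NA_anti hab)
            (fun j => one_le_NA hA ω j) (3 * G) K T
          push_cast at this
          linarith
      _ = 6 * G * Hm K := Ex_const hn1 _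
  have s3 : ∑ i ∈ range T, Ex (fun ω : Om N n => kap F A ω i * psi F A K ω i) ≤ 3 * Hm K := by
    calc ∑ i ∈ range T, Ex (fun ω : Om N n => kap F A ω i * psi F A K ω i)
        ≤ ∑ i ∈ range T, 3 * Ex (fun ω : Om N n =>
            ((NA F A ω i : ℝ) - NA F A ω (i + 1)) * psi F A K ω i) := by
          apply Finset.sum_le_sum
          intro i hi
          rw [Finset.mem_range] at hi
          exact hRES N n hn F hF A K i (by omega)
      _ = 3 * Ex (fun ω : Om N n => ∑ i ∈ range T,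
            ((NA F A ω i : ℝ) - NA F A ω (i + 1)) * psi F A K ω i) := by
          rw [Ex_sum, Finset.mul_sum]
      _ ≤ 3 * Ex (fun _ : Om N n => Hm K) := by
          apply mul_le_mul_of_nonneg_left _ (by norm_num)
          apply Ex_mono
          intro ω
          exact hPTB (fun j => NA F A ω j) (fun a b hab => NA_anti hab)
            (fun j => one_le_NA hA ω j) K T
      _ = 3 * Hm K := by rw [Ex_const hn1]
  rw [Finset.sum_add_distrib, ← Finset.mul_sum, ← Finset.mul_sum] at s1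
  have t1 : (1 + 2 * (G : ℝ)) * ∑ i ∈ range T, Ex (fun ω : Om N n =>
        ind (NA F A ω i < NA F A ω (i - 3 * G) ∧ NA F A ω (i - 3 * G) < K) / (NA F A ω i : ℝ)) ≤
      (1 + 2 * (G : ℝ)) * (6 * G * Hm K) := mul_le_mul_of_nonneg_left s2 (by linarith)
  have t2 : (G : ℝ) * ∑ i ∈ range T, Ex (fun ω : Om N n => kap F A ω i * psi F A K ω i) ≤
      G * (3 * Hm K) := mul_le_mul_of_nonneg_left s3 (by linarith)
  have t3 : (G : ℝ) * Hm K ≤ G ^ 2 * Hm K := by
    apply mul_le_mul_of_nonneg_right _ hH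
    nlinarith
  nlinarith

end LGT_

theorem t_lgt (hSZB : Stmt_SZB) (hPTA : Stmt_PTA) (hPTB : Stmt_PTB) (hRES : Stmt_RES) :
    Stmt_LGT := by
  intro N n hn F hF G K T hG hT
  have hH := Hm_nonneg K
  have hG1 : (1 : ℝ) ≤ G := by exact_mod_cast hG
  have s1 : ∀ i ∈ range T, Real.exp ((i : ℝ) + 1) *
      Ex (fun ω : Om N n => ind (LE F ω G K i) *
        (1 + G * ((un F ω i).card : ℝ) / ((n : ℝ) - i))) ≤
      ∑ A ∈ F, (2 * Real.exp 1 / 2 ^ (n - 1)) * Ex (fun ω : Om N n => LGT_.Y F A G K i ω) := by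
    intro i hi
    rw [Finset.mem_range] at hi
    have h1 := hSZB N n hn F hF G K i (by omega)
    calc Real.exp ((i : ℝ) + 1) *
          Ex (fun ω : Om N n => ind (LE F ω G K i) *
            (1 + G * ((un F ω i).card : ℝ) / ((n : ℝ) - i)))
        ≤ Real.exp ((i : ℝ) + 1) * ∑ A ∈ F, (((n : ℝ) - i) / (2 * n)) ^ (n - 1) *
            Ex (fun ω : Om N n => LGT_.Y F A G K i ω) :=
          mul_le_mul_of_nonneg_left h1 (Real.exp_pos _).le
      _ = ∑ A ∈ F, (Real.exp ((i : ℝ) + 1) * (((n : ℝ) - i) / (2 * n)) ^ (n - 1)) *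
            Ex (fun ω : Om N n => LGT_.Y F A G K i ω) := by
          rw [Finset.mul_sum]
          exact Finset.sum_congr rfl (fun A _ => by ring)
      _ ≤ _ := by
          apply Finset.sum_le_sum
          intro A hA
          apply mul_le_mul_of_nonneg_right (LGT_.pow_bound n i hn (by omega))
          apply Ex_nonneg
          intro ω
          unfold LGT_.Y
          have hi1 : (4 : ℝ) * i < n := by exact_mod_cast (by omega : 4 * i < n)
          have hi0 : (0 : ℝ) ≤ i := Nat.cast_nonneg i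
          have hn2 : (2 : ℝ) ≤ n := by exact_mod_cast hn
          have hk := LGT_.kap_nonneg F A ω i (by omega : i ≤ n)
          have hr : 0 ≤ ((n : ℝ) - 1) / ((n : ℝ) - i) := by
            apply div_nonneg <;> linarith
          apply div_nonneg _ (Nat.cast_nonneg _)
          apply mul_nonneg (ind_nonneg _)
          have : 0 ≤ (G : ℝ) * (((n : ℝ) - 1) / ((n : ℝ) - i) + kap F A ω i) :=
            mul_nonneg (by linarith) (by linarith)
          linarith
  calc ∑ i ∈ range T, Real.exp ((i : ℝ) + 1) *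
        Ex (fun ω : Om N n => ind (LE F ω G K i) *
          (1 + G * ((un F ω i).card : ℝ) / ((n : ℝ) - i)))
      ≤ ∑ i ∈ range T, ∑ A ∈ F, (2 * Real.exp 1 / 2 ^ (n - 1)) *
          Ex (fun ω : Om N n => LGT_.Y F A G K i ω) := Finset.sum_le_sum s1
    _ = ∑ A ∈ F, (2 * Real.exp 1 / 2 ^ (n - 1)) *
          ∑ i ∈ range T, Ex (fun ω : Om N n => LGT_.Y F A G K i ω) := by
        rw [Finset.sum_comm]
        exact Finset.sum_congr rfl (fun A _ => by rw [Finset.mul_sum])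
    _ ≤ ∑ A ∈ F, (2 * Real.exp 1 / 2 ^ (n - 1)) * (21 * (G : ℝ) ^ 2 * Hm K) := by
        apply Finset.sum_le_sum
        intro A hA
        apply mul_le_mul_of_nonneg_left _ (by positivity)
        exact LGT_.Ex_Y hPTA hPTB hRES hn F hF A hA G K T hG hT
    _ = 42 * Real.exp 1 * G ^ 2 * Hm K * mu n F := by
        rw [Finset.sum_const, nsmul_eq_mul]
        unfold mu
        ring

end Pool.Agent.PBL
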