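import Pool.Agent.PBL.Stmts

/-!
# PBL, module NUA: choice of the parameters, first properties
-/

namespace Pool.Agent.PBL

open Finset

open Filter in
theorem t_nua : Stmt_NUA := by
  have hcast : Tendsto (fun n : ℕ => (n : ℝ)) atTop atTop := tendsto_natCast_atTop_atTop
  have hlog : Tendsto (fun n : ℕ => Real.log (n : ℝ)) atTop atTop :=
    Real.tendsto_log_atTop.comp hcast
  have hloglog : Tendsto (fun n : ℕ => Real.log (Real.log (n : ℝ))) atTop atTop :=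
    Real.tendsto_log_atTop.comp hlog
  have e1 : ∀ᶠ n : ℕ in atTop, 1 ≤ Real.log (Real.log (n : ℝ)) :=
    hloglog.eventually_ge_atTop 1
  have e2 : ∀ᶠ n : ℕ in atTop, 4 ≤ Real.log (n : ℝ) := hlog.eventually_ge_atTop 4
  have e3 : ∀ᶠ n : ℕ in atTop, Real.log (n : ℝ) ≤ (1 / 28) * (n : ℝ) := by
    have h1 := (Real.isLittleO_log_id_atTop.bound (show (0 : ℝ) < 1 / 28 by norm_num))
    have h2 := hcast.eventually h1
    filter_upwards [h2, e2] with n hn hn2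
    simp only [id, Real.norm_eq_abs] at hn
    rw [abs_of_nonneg (by linarith), abs_of_nonneg (Nat.cast_nonneg n)] at hn
    exact hn
  have e4 : ∀ᶠ n : ℕ in atTop, 28 ≤ (n : ℝ) := hcast.eventually_ge_atTop 28
  obtain ⟨n₀, hn₀⟩ := eventually_atTop.mp ((e1.and e2).and (e3.and e4))
  refine ⟨n₀, fun n hn => ?_⟩
  obtain ⟨⟨h1, h2⟩, h3, h4⟩ := hn₀ n hn
  set L : ℝ := Real.log (n : ℝ) with hL
  set Θ : ℕ := ⌈(1 / 2) * L⌉₊ with hΘ
  have hΘ1 : (1 / 2) * L ≤ (Θ : ℝ) := Nat.le_ceil _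
  have hΘ2 : (Θ : ℝ) < (1 / 2) * L + 1 := Nat.ceil_lt_add_one (by linarith)
  have hΘ3 : (2 : ℝ) ≤ Θ := by linarith
  have hΘ4 : (Θ : ℝ) ≤ L := by linarith
  have hlΘ : 0 < Real.log (Θ : ℝ) := Real.log_pos (by linarith)
  have hlΘ2 : Real.log (Θ : ℝ) ≤ Real.log L := Real.log_le_log (by linarith) hΘ4
  set G : ℕ := ⌈2 * Real.log (Θ : ℝ)⌉₊ with hG
  have hG1 : 2 * Real.log (Θ : ℝ) ≤ (G : ℝ) := Nat.le_ceil _
  have hG2 : (G : ℝ) < 2 * Real.log (Θ : ℝ) + 1 := Nat.ceil_lt_add_one (by linarith)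
  have hn0 : (0 : ℝ) < n := by linarith
  have hlL : Real.log L ≤ L := by
    have := Real.log_le_sub_one_of_pos (show 0 < L by linarith)
    linarith
  have hsq : Real.exp ((1 / 2) * L) = Real.sqrt n := by
    rw [Real.sqrt_eq_rpow, Real.rpow_def_of_pos hn0]
    congr 1
    ring
  refine ⟨G, Θ, ?_, ?_, ?_, h1, hΘ4, ?_, ?_, ?_⟩
  · rw [Nat.one_le_iff_ne_zero]
    intro h
    rw [h] at hG1
    simp only [Nat.cast_zero] at hG1
    linarith
  · have : Real.log (Θ : ℝ) ≤ (G : ℝ) / 2 := by linarith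
    calc (Θ : ℝ) = Real.exp (Real.log (Θ : ℝ)) := (Real.exp_log (by linarith)).symm
      _ ≤ _ := Real.exp_le_exp.mpr this
  · have h5 : (4 : ℝ) * ((Θ : ℝ) + G) ≤ n := by linarith
    exact_mod_cast h5
  · linarith
  · calc Real.exp (-(Θ : ℝ)) ≤ Real.exp (-((1 / 2) * L)) := Real.exp_le_exp.mpr (by linarith)
      _ = 1 / Real.sqrt n := by rw [Real.exp_neg, hsq, one_div]
  · calc Real.exp (Θ : ℝ) ≤ Real.exp ((1 / 2) * L + 1) := Real.exp_le_exp.mpr (by linarith)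
      _ = Real.exp 1 * Real.sqrt n := by rw [Real.exp_add, hsq]; ring
      _ ≤ 3 * Real.sqrt n := by
        have h6 : Real.exp 1 ≤ 3 := by
          have := Real.exp_one_lt_d9
          linarith
        exact mul_le_mul_of_nonneg_right h6 (Real.sqrt_nonneg _)

end Pool.Agent.PBL
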