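import Pool.Agent.PBL.Stmts

/-! Module PRG of squad PBL: product bound for the bad event of an edge. -/

namespace Pool.Agent.PBL

open Finset

namespace PRG_

theorem card_red {n : ℕ} (hn : 1 ≤ n) :
    ((univ.filter fun l : Lab n => n ≤ (l.1 : ℕ)).card : ℝ) = 2 * n := by
  have h : (univ.filter fun l : Lab n => n ≤ (l.1 : ℕ)) =
      (Finset.Ici (⟨n, by omega⟩ : Fin (2 * n))) ×ˢ (univ : Finset Bool) := by
    ext ⟨i, b⟩
    simp [Fin.le_def]
  rw [h, Finset.card_product, Fin.card_Ici]
  simp only [Finset.card_univ, Fintype.card_bool]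
  have : 2 * n - n = n := by omega
  rw [this]
  push_cast
  ring

end PRG_

open PRG_ Classical in
theorem t_prg (hPWC : Stmt_PWC) (hPRB : Stmt_PRB) (hSIB : Stmt_SIB) (hAVL : Stmt_AVL) : Stmt_PRG := by
  intro N n hn E hE G Θ g hg
  have hn1 : 1 ≤ n := by omega
  have hn0 : (0 : ℝ) < n := by
    have : 0 < n := by omega
    exact_mod_cast this
  unfold Pr
  rw [hPWC N n hn1 g (fun ω => ind (EvG G Θ E g ω)), ← Ex_const_mul]
  refine Ex_mono fun ω => ?_
  set S : Fin N → Finset (Lab n) := fun v =>
    univ.filter fun l => n ≤ (l.1 : ℕ) ∨ Av G Θ E g (Function.update ω v l) v with hS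
  set R : Fin N → Finset (Lab n) := fun _ => univ.filter fun l => n ≤ (l.1 : ℕ) with hR
  have h1 : Ex (fun ω' : Om N n => ind (EvG G Θ E g (fun v => if v ∈ g then ω' v else ω v))) ≤
      Pr (fun ω' : Om N n => ∀ v ∈ g, ω' v ∈ S v) - Pr (fun ω' : Om N n => ∀ v ∈ g, ω' v ∈ R v) := by
    unfold Pr
    rw [← Ex_sub]
    refine Ex_mono fun ω' => ?_
    by_cases hb : EvG G Θ E g (fun v => if v ∈ g then ω' v else ω v)
    · rw [ind_pos hb]
      obtain ⟨⟨v0, hv0, hv0n⟩, hall⟩ := hb
      have h2 : ∀ v ∈ g, ω' v ∈ S v := by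
        intro v hv
        simp only [hS, Finset.mem_filter, Finset.mem_univ, true_and]
        by_cases hl : n ≤ ((ω' v).1 : ℕ)
        · exact Or.inl hl
        · right
          have h3 := hall v hv (by
            unfold lv
            simp only [hv, if_true]
            omega)
          refine (hAVL N n E G Θ g v _ _ hv ?_ ?_).1 h3
          · simp [hv]
          · intro a ha
            have hne : a ≠ v := fun e => ha (e ▸ hv)
            simp [ha, hne]
      have h3 : ¬ ∀ v ∈ g, ω' v ∈ R v := by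
        intro h
        have h4 := h v0 hv0
        simp only [hR, Finset.mem_filter, Finset.mem_univ, true_and] at h4
        unfold lv at hv0n
        simp only [hv0, if_true] at hv0n
        omega
      rw [ind_pos h2, ind_neg h3]
      norm_num
    · rw [ind_neg hb]
      have h2 : ind (∀ v ∈ g, ω' v ∈ R v) ≤ ind (∀ v ∈ g, ω' v ∈ S v) := by
        refine ind_mono fun h v hv => ?_
        have h3 := h v hv
        simp only [hR, hS, Finset.mem_filter, Finset.mem_univ, true_and] at h3 ⊢
        exact Or.inl h3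
      linarith
  refine h1.trans ?_
  rw [hPRB N n hn1 g S, hPRB N n hn1 g R]
  have hz : ∀ v, 0 ≤ zb (fam E g v) ω G Θ := fun v => zb_nonneg _ _ _ _
  have hSc : ∀ v ∈ g, ((S v).card : ℝ) / (4 * n) ≤ 1 / 2 * (1 + zb (fam E g v) ω G Θ / n) := by
    intro v hv
    have h2 := hSIB N n hn E hE G Θ g v hv ω
    have h3 : ((univ.filter fun l : Lab n =>
        (l.1 : ℕ) < n ∧ Av G Θ E g (Function.update ω v l) v).card : ℝ) ≤ 2 * zb (fam E g v) ω G Θ := by
      refine le_trans (le_of_eq ?_) h2
      rw [Finset.card_filter]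
      push_cast
      refine Finset.sum_congr rfl fun l _ => ?_
      unfold ind
      split_ifs <;> rfl
    have h4 : ((S v).card : ℝ) ≤ 2 * n + 2 * zb (fam E g v) ω G Θ := by
      have h5 : S v ⊆ (univ.filter fun l : Lab n => n ≤ (l.1 : ℕ)) ∪
          (univ.filter fun l : Lab n => (l.1 : ℕ) < n ∧ Av G Θ E g (Function.update ω v l) v) := by
        intro l hl
        simp only [hS, Finset.mem_filter, Finset.mem_univ, true_and, Finset.mem_union] at hl ⊢
        by_cases h6 : n ≤ (l.1 : ℕ)
        · exact Or.inl h6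
        · exact Or.inr ⟨by omega, hl.resolve_left h6⟩
      have h7 := (Finset.card_le_card h5).trans (Finset.card_union_le _ _)
      have h8 : ((S v).card : ℝ) ≤ ((univ.filter fun l : Lab n => n ≤ (l.1 : ℕ)).card : ℝ) +
          ((univ.filter fun l : Lab n =>
            (l.1 : ℕ) < n ∧ Av G Θ E g (Function.update ω v l) v).card : ℝ) := by exact_mod_cast h7
      rw [card_red hn1] at h8
      linarith
    rw [div_le_iff₀ (by positivity)]
    have h9 : 1 / 2 * (1 + zb (fam E g v) ω G Θ / n) * (4 * n) = 2 * n + 2 * zb (fam E g v) ω G Θ := by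
      field_simp
      ring
    rw [h9]
    exact h4
  have hprod : ∏ v ∈ g, ((S v).card : ℝ) / (4 * n) ≤ (1 / 2 ^ n) * ∏ v ∈ g, (1 + zb (fam E g v) ω G Θ / n) := by
    calc ∏ v ∈ g, ((S v).card : ℝ) / (4 * n)
        ≤ ∏ v ∈ g, (1 / 2 * (1 + zb (fam E g v) ω G Θ / n)) :=
          Finset.prod_le_prod (fun v _ => by positivity) hSc
      _ = _ := by
          rw [Finset.prod_mul_distrib, Finset.prod_const, hE g hg]
          congr 1
          rw [one_div, one_div, inv_pow]
  have hR2 : ∏ v ∈ g, ((R v).card : ℝ) / (4 * n) = 1 / 2 ^ n := by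
    have h2 : ∀ v ∈ g, ((R v).card : ℝ) / (4 * n) = 1 / 2 := by
      intro v _
      simp only [hR]
      rw [card_red hn1]
      field_simp
      ring
    rw [Finset.prod_congr rfl h2, Finset.prod_const, hE g hg, one_div, one_div, inv_pow]
  rw [hR2]
  calc _ ≤ (1 / 2 ^ n) * ∏ v ∈ g, (1 + zb (fam E g v) ω G Θ / n) - 1 / 2 ^ n := by linarith
    _ = _ := by ring

end Pool.Agent.PBL
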