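import Pool.Agent.PBL.Stmts

/-!
# PBL (MP_5e7c84_co), module PRL: product sets of levels
-/

set_option autoImplicit false

namespace Pool.Agent.PBL

open Finset

namespace PRL_

/-- the labels with level in `L` -/
def T (n : ℕ) (L : Finset ℕ) : Finset (Lab n) :=
  (univ.filter (fun i : Fin (2 * n) => (i : ℕ) ∈ L)) ×ˢ (univ : Finset Bool)

theorem card_T {n : ℕ} {L : Finset ℕ} (h : L ⊆ range (2 * n)) : (T n L).card = 2 * L.card := by
  rw [T, card_product, Finset.card_univ, Fintype.card_bool, mul_comm]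
  congr 1
  symm
  refine Finset.card_bij' (fun i hi => (⟨i, mem_range.1 (h hi)⟩ : Fin (2 * n)))
    (fun i _ => (i : ℕ)) ?_ ?_ ?_ ?_
  · intro i hi
    rw [mem_filter]
    exact ⟨mem_univ _, hi⟩
  · intro i hi
    rw [mem_filter] at hi
    exact hi.2
  · intro i _
    rfl
  · intro i _
    rfl

end PRL_

open PRL_ in
theorem t_prl (hPRB : Stmt_PRB) : Stmt_PRL := by
  intro N n hn S L hL
  have h1 := hPRB N n hn S (fun v => T n (L v))
  have h2 : (fun ω : Om N n => ∀ v ∈ S, ω v ∈ T n (L v)) =
      fun ω : Om N n => ∀ v ∈ S, lv ω v ∈ L v := by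
    funext ω
    apply propext
    apply forall_congr'
    intro v
    apply imp_congr Iff.rfl
    rw [T, mem_product, mem_filter]
    simp [lv]
  rw [h2] at h1
  rw [h1]
  apply Finset.prod_congr rfl
  intro v hv
  rw [card_T (hL v hv)]
  push_cast
  have hn0 : (0 : ℝ) < n := by exact_mod_cast hn
  field_simp
  ring

end Pool.Agent.PBL
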