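import Pool.Agent.PBL.Stmts

/-!
# PBL (MP_5e7c84_co), module PWC: resampling
-/

set_option autoImplicit false

namespace Pool.Agent.PBL

open Finset

namespace PWC_

variable {N n : ℕ}

/-- `ω` on `S`, `ω'` outside -/
def mix (S : Finset (Fin N)) (ω ω' : Om N n) : Om N n := fun v => if v ∈ S then ω v else ω' v

theorem mix_mix (S : Finset (Fin N)) (ω ω' : Om N n) :
    mix S (mix S ω ω') (mix S ω' ω) = ω := by
  funext v
  by_cases h : v ∈ S
  · simp [mix, h]
  · simp [mix, h]

/-- exchange of the coordinates outside `S` -/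
def swp (S : Finset (Fin N)) : (Om N n × Om N n) ≃ (Om N n × Om N n) where
  toFun p := (mix S p.1 p.2, mix S p.2 p.1)
  invFun p := (mix S p.1 p.2, mix S p.2 p.1)
  left_inv p := by
    obtain ⟨a, b⟩ := p
    show (mix S (mix S a b) (mix S b a), mix S (mix S b a) (mix S a b)) = (a, b)
    rw [mix_mix, mix_mix]
  right_inv p := by
    obtain ⟨a, b⟩ := p
    show (mix S (mix S a b) (mix S b a), mix S (mix S b a) (mix S a b)) = (a, b)
    rw [mix_mix, mix_mix]

end PWC_

open PWC_ in
theorem t_pwc : Stmt_PWC := by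
  intro N n hn S F
  have hc := card_Om_pos (N := N) hn
  have h1 : ∑ ω : Om N n, ∑ ω' : Om N n, F (fun v => if v ∈ S then ω' v else ω v) =
      (Fintype.card (Om N n) : ℝ) * ∑ ω : Om N n, F ω := by
    calc ∑ ω : Om N n, ∑ ω' : Om N n, F (fun v => if v ∈ S then ω' v else ω v)
        = ∑ ω' : Om N n, ∑ ω : Om N n, F (fun v => if v ∈ S then ω' v else ω v) :=
          Finset.sum_comm
      _ = ∑ p : Om N n × Om N n, F (swp S p).1 := by
          rw [Fintype.sum_prod_type]
          rfl
      _ = ∑ p : Om N n × Om N n, F p.1 :=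
          Equiv.sum_comp (swp S) (fun p : Om N n × Om N n => F p.1)
      _ = (Fintype.card (Om N n) : ℝ) * ∑ ω : Om N n, F ω := by
          rw [Fintype.sum_prod_type, Finset.mul_sum]
          apply Finset.sum_congr rfl
          intro ω _
          show ∑ _y : Om N n, F ω = _
          rw [Finset.sum_const, Finset.card_univ, nsmul_eq_mul]
  have h2 : Ex (fun ω : Om N n => Ex (fun ω' : Om N n => F (fun v => if v ∈ S then ω' v else ω v)))
      = (∑ ω : Om N n, ∑ ω' : Om N n, F (fun v => if v ∈ S then ω' v else ω v)) /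
        (Fintype.card (Om N n) : ℝ) / (Fintype.card (Om N n) : ℝ) := by
    unfold Ex
    rw [← Finset.sum_div]
  rw [h2, h1, mul_div_assoc, mul_div_assoc, ← mul_div_assoc, mul_div_cancel_left₀ _ hc.ne', Ex]

end Pool.Agent.PBL
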