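import Pool.Agent.PBL.Stmts

/-!
# PBL, module RED: a colouring from the two sides
-/

namespace Pool.Agent.PBL

open Finset

namespace RED_

variable {N n : ℕ}

/-- reflection of the levels -/
def refl (ω : Om N n) : Om N n := fun v => (Fin.rev (ω v).1, (ω v).2)

theorem refl_refl (ω : Om N n) : refl (refl ω) = ω := by
  funext v
  simp [refl]

/-- reflection as an equivalence -/
def reflE (N n : ℕ) : Om N n ≃ Om N n where
  toFun := refl
  invFun := refl
  left_inv := refl_refl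
  right_inv := refl_refl

theorem lv_refl (ω : Om N n) (v : Fin N) : lv (refl ω) v + lv ω v + 1 = 2 * n := by
  unfold lv refl
  simp only [Fin.val_rev]
  have := (ω v).1.isLt
  omega

theorem Pr_refl (p : Om N n → Prop) : Pr (fun ω => p (refl ω)) = Pr p := by
  unfold Pr Ex
  congr 1
  exact Equiv.sum_comp (reflE N n) (fun ω => ind (p ω))

end RED_

open RED_ in
theorem t_red : Stmt_RED := by
  intro N n hn E hE hP
  have h2 : Pr (fun ω : Om N n => ¬ Good E ω ∨ ¬ Good E (refl ω)) < 1 := by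
    have h3 := Pr_or_le (fun ω : Om N n => ¬ Good E ω) (fun ω => ¬ Good E (refl ω))
    have h4 := Pr_refl (fun ω : Om N n => ¬ Good E ω)
    linarith
  obtain ⟨ω, hω⟩ := exists_of_Pr_lt_one hn _ h2
  push Not at hω
  obtain ⟨⟨R, hR1, hR2, hR3⟩, ⟨R', hR1', hR2', hR3'⟩⟩ := hω
  have hlt : ∀ v, lv (refl ω) v < n ↔ ¬ lv ω v < n := by
    intro v
    have := lv_refl ω v
    omega
  simp only [hlt] at hR1' hR2' hR3'
  classical
  refine ⟨fun v => decide (v ∈ R ∨ (¬ lv ω v < n ∧ v ∉ R')), ?_⟩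
  intro e he
  have hne : e.Nonempty := by
    rw [← Finset.card_pos, hE e he]; omega
  -- a red vertex and a blue vertex
  have hred : ∃ x ∈ e, (x ∈ R ∨ (¬ lv ω x < n ∧ x ∉ R')) := by
    by_cases hB : ∀ v ∈ e, lv ω v < n
    · obtain ⟨x, hx, hxR⟩ := hR2 e he hB
      exact ⟨x, hx, Or.inl hxR⟩
    · push Not at hB
      obtain ⟨v, hv, hvn⟩ := hB
      obtain ⟨x, hx, hx1, hx2⟩ := hR3' e he ⟨v, hv, by omega⟩
      exact ⟨x, hx, Or.inr ⟨hx1, hx2⟩⟩
  have hblue : ∃ y ∈ e, ¬ (y ∈ R ∨ (¬ lv ω y < n ∧ y ∉ R')) := by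
    by_cases hC : ∀ v ∈ e, ¬ lv ω v < n
    · obtain ⟨x, hx, hxR⟩ := hR2' e he hC
      refine ⟨x, hx, ?_⟩
      rintro (h | h)
      · exact hC x hx (hR1 x h)
      · exact h.2 hxR
    · push Not at hC
      obtain ⟨v, hv, hvn⟩ := hC
      obtain ⟨x, hx, hx1, hx2⟩ := hR3 e he ⟨v, hv, hvn⟩
      refine ⟨x, hx, ?_⟩
      rintro (h | h)
      · exact hx2 h
      · exact h.1 hx1
  obtain ⟨x, hx, hx1⟩ := hred
  obtain ⟨y, hy, hy1⟩ := hblue
  refine ⟨x, hx, y, hy, ?_⟩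
  simp only [ne_eq, decide_eq_decide]
  intro h
  exact hy1 (h.1 hx1)

end Pool.Agent.PBL
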