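import Pool.Agent.PBL.Stmts

/-! Module RES: the hazard rate. -/

namespace Pool.Agent.PBL

open Finset

namespace RES_

variable {N n : ℕ}

theorem NA_sum (F : Finset (Finset (Fin N))) (A : Finset (Fin N)) (ω : Om N n) (j : ℕ) :
    (NA F A ω j : ℝ) = ∑ A' ∈ F, ind (al ω j (A' \ A)) := by
  classical
  unfold NA alA ind
  rw [Finset.card_filter]
  push_cast
  apply Finset.sum_congr rfl
  intro A' _
  by_cases h : al ω j (A' \ A) <;> simp [h]

theorem kap_sum (F : Finset (Finset (Fin N))) (A : Finset (Fin N)) (ω : Om N n) (j : ℕ) :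
    kap F A ω j = ∑ A' ∈ F, (((A' \ A).card : ℝ) / ((n : ℝ) - j)) * ind (al ω j (A' \ A)) := by
  classical
  unfold kap alA ind
  rw [Finset.sum_filter, Finset.sum_div]
  apply Finset.sum_congr rfl
  intro A' _
  by_cases h : al ω j (A' \ A) <;> simp [h]

theorem psi_nonneg (F : Finset (Finset (Fin N))) (A : Finset (Fin N)) (K : ℕ) (ω : Om N n)
    (i : ℕ) : 0 ≤ psi F A K ω i := by
  unfold psi
  exact div_nonneg (ind_nonneg _) (Nat.cast_nonneg _)

theorem psi_pattern (F : Finset (Finset (Fin N))) (A : Finset (Fin N)) (K i : ℕ)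
    (ω ω' : Om N n)
    (h : ∀ v, (i ≤ lv ω v ∧ lv ω v < n) ↔ (i ≤ lv ω' v ∧ lv ω' v < n)) :
    psi F A K ω i = psi F A K ω' i := by
  have h1 : NA F A ω i = NA F A ω' i := by
    unfold NA
    congr 1
    ext A'
    rw [mem_alA, mem_alA]
    unfold al
    constructor
    · rintro ⟨h2, h3⟩
      exact ⟨h2, fun a ha => (h a).1 (h3 a ha)⟩
    · rintro ⟨h2, h3⟩
      exact ⟨h2, fun a ha => (h a).2 (h3 a ha)⟩
  unfold psi
  rw [h1]

theorem num (x : ℝ) (hx : 0 ≤ x) (hx1 : x ≤ 1) (r : ℕ) (hr : (r : ℝ) * x ≤ 2) :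
    (r : ℝ) * x ≤ 3 * (1 - (1 - x) ^ r) := by
  have h1 : (1 - x) ^ r * (1 + x) ^ r ≤ 1 := by
    rw [← mul_pow]
    apply pow_le_one₀
    · nlinarith
    · nlinarith
  have h2 : 1 + (r : ℝ) * x ≤ (1 + x) ^ r := one_add_mul_le_pow (by linarith) r
  have h3 : 0 ≤ (1 - x) ^ r := pow_nonneg (by linarith) r
  have h4 : (1 - x) ^ r * (1 + (r : ℝ) * x) ≤ 1 :=
    le_trans (mul_le_mul_of_nonneg_left h2 h3) h1
  have h5 : 0 ≤ (r : ℝ) * x := mul_nonneg (Nat.cast_nonneg r) hx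
  nlinarith

end RES_

theorem t_res (hRSA : Stmt_RSA) : Stmt_RES := by
  intro N n hn F hF A K i hi
  have hi' : (4 : ℝ) * i < n := by exact_mod_cast hi
  have hi0 : (0 : ℝ) ≤ i := Nat.cast_nonneg i
  have hn2 : (2 : ℝ) ≤ n := by exact_mod_cast hn
  have hni : (1 : ℝ) ≤ (n : ℝ) - i := by
    have : i + 1 ≤ n := by omega
    have : ((i + 1 : ℕ) : ℝ) ≤ n := by exact_mod_cast this
    push_cast at this
    linarith
  have e1 : Ex (fun ω : Om N n => kap F A ω i * psi F A K ω i) =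
      ∑ A' ∈ F, (((A' \ A).card : ℝ) / ((n : ℝ) - i)) *
        Ex (fun ω : Om N n => ind (al ω i (A' \ A)) * psi F A K ω i) := by
    have : ∀ ω : Om N n, kap F A ω i * psi F A K ω i =
        ∑ A' ∈ F, (((A' \ A).card : ℝ) / ((n : ℝ) - i)) *
          (ind (al ω i (A' \ A)) * psi F A K ω i) := by
      intro ω
      rw [RES_.kap_sum, Finset.sum_mul]
      exact Finset.sum_congr rfl (fun A' _ => by ring)
    rw [Ex_congr this, Ex_sum]
    exact Finset.sum_congr rfl (fun A' _ => Ex_const_mul _ _)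
  have e2 : Ex (fun ω : Om N n => ((NA F A ω i : ℝ) - NA F A ω (i + 1)) * psi F A K ω i) =
      ∑ A' ∈ F, (Ex (fun ω : Om N n => ind (al ω i (A' \ A)) * psi F A K ω i) -
        Ex (fun ω : Om N n => ind (al ω (i + 1) (A' \ A)) * psi F A K ω i)) := by
    have : ∀ ω : Om N n, ((NA F A ω i : ℝ) - NA F A ω (i + 1)) * psi F A K ω i =
        ∑ A' ∈ F, (ind (al ω i (A' \ A)) * psi F A K ω i -
          ind (al ω (i + 1) (A' \ A)) * psi F A K ω i) := by
      intro ω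
      rw [RES_.NA_sum, RES_.NA_sum, ← Finset.sum_sub_distrib, Finset.sum_mul]
      exact Finset.sum_congr rfl (fun A' _ => by ring)
    rw [Ex_congr this, Ex_sum]
    exact Finset.sum_congr rfl (fun A' _ => Ex_sub _ _)
  rw [e1, e2, Finset.mul_sum]
  apply Finset.sum_le_sum
  intro A' hA'
  rw [hRSA N n (by omega) (A' \ A) i (fun ω => psi F A K ω i) (by omega)
    (fun ω ω' h => RES_.psi_pattern F A K i ω ω' h)]
  set P := Ex (fun ω : Om N n => ind (al ω i (A' \ A)) * psi F A K ω i) with hP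
  have hP0 : 0 ≤ P := Ex_nonneg (fun ω => mul_nonneg (ind_nonneg _) (RES_.psi_nonneg F A K ω i))
  set r := (A' \ A).card with hr
  have hrn : r ≤ n - 1 := by
    rw [hr, ← hF A' hA']
    exact Finset.card_le_card Finset.sdiff_subset
  have hrn' : (r : ℝ) ≤ (n : ℝ) - 1 := by
    have : r + 1 ≤ n := by omega
    have : ((r + 1 : ℕ) : ℝ) ≤ n := by exact_mod_cast this
    push_cast at this
    linarith
  have hx : ((n : ℝ) - i - 1) / ((n : ℝ) - i) = 1 - 1 / ((n : ℝ) - i) := by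
    field_simp
  rw [hx]
  have hx0 : 0 ≤ 1 / ((n : ℝ) - i) := by positivity
  have hx1 : 1 / ((n : ℝ) - i) ≤ 1 := by
    rw [div_le_one (by linarith)]; exact hni
  have hrx : (r : ℝ) * (1 / ((n : ℝ) - i)) ≤ 2 := by
    rw [mul_one_div, div_le_iff₀ (by linarith)]
    linarith
  have hnum := RES_.num (1 / ((n : ℝ) - i)) hx0 hx1 r hrx
  have : (r : ℝ) / ((n : ℝ) - i) * P ≤ 3 * (1 - (1 - 1 / ((n : ℝ) - i)) ^ r) * P := by
    apply mul_le_mul_of_nonneg_right _ hP0
    rw [div_eq_mul_one_div]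
    exact hnum
  calc (r : ℝ) / ((n : ℝ) - i) * P ≤ 3 * (1 - (1 - 1 / ((n : ℝ) - i)) ^ r) * P := this
    _ = _ := by ring

end Pool.Agent.PBL
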