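import Pool.Agent.PBL.Stmts

/-!
# PBL, module RSA: one more level
-/

namespace Pool.Agent.PBL

open Finset

namespace RSA_

variable {N n : ℕ}

/-- the factorisation at the level `j` -/
theorem fact (hIND : Stmt_IND) (hPRL : Stmt_PRL) (hn : 1 ≤ n) (S : Finset (Fin N)) (i : ℕ) (hi : i < n)
    (H : Om N n → ℝ)
    (hH : ∀ ω ω' : Om N n, (∀ v, (i ≤ lv ω v ∧ lv ω v < n) ↔ (i ≤ lv ω' v ∧ lv ω' v < n)) → H ω = H ω')
    (j : ℕ) (hij : i ≤ j) (hj : j ≤ n) :
    Ex (fun ω => ind (al ω j S) * H ω) = (((n : ℝ) - j) / (2 * n)) ^ S.card *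
      Ex (fun ω : Om N n => H (fun v => if v ∈ S then ((⟨i, by omega⟩ : Fin (2 * n)), false) else ω v)) := by
  have h1 : Ex (fun ω => ind (al ω j S) * H ω) = Ex (fun ω : Om N n => ind (al ω j S) *
      H (fun v => if v ∈ S then ((⟨i, by omega⟩ : Fin (2 * n)), false) else ω v)) := by
    refine Ex_congr (fun ω => ?_)
    by_cases ha : al ω j S
    · rw [ind_pos ha, one_mul, one_mul]
      refine hH _ _ (fun v => ?_)
      by_cases hv : v ∈ S
      · have h2 := ha v hv
        have h3 : lv (fun v => if v ∈ S then ((⟨i, by omega⟩ : Fin (2 * n)), false) else ω v) v = i := by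
          unfold lv
          simp [hv]
        rw [h3]
        constructor
        · intro _
          exact ⟨le_refl _, hi⟩
        · intro _
          exact ⟨hij.trans h2.1, h2.2⟩
      · have h3 : lv (fun v => if v ∈ S then ((⟨i, by omega⟩ : Fin (2 * n)), false) else ω v) v = lv ω v := by
          unfold lv
          simp [hv]
        rw [h3]
    · rw [ind_neg ha, zero_mul, zero_mul]
  rw [h1, hIND N n hn S (fun ω => ind (al ω j S))
    (fun ω => H (fun v => if v ∈ S then ((⟨i, by omega⟩ : Fin (2 * n)), false) else ω v))]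
  · congr 1
    have h2 := hPRL N n hn S (fun _ => Finset.Ico j n) (fun v _ x hx => by
      rw [Finset.mem_Ico] at hx
      rw [Finset.mem_range]
      omega)
    unfold Pr at h2
    have h3 : Ex (fun ω : Om N n => ind (al ω j S)) = Ex (fun ω : Om N n => ind (∀ v ∈ S, lv ω v ∈ Finset.Ico j n)) := by
      refine Ex_congr (fun ω => ind_congr ?_)
      unfold al
      simp only [Finset.mem_Ico]
    rw [h3, h2, Finset.prod_const, Nat.card_Ico, Nat.cast_sub hj]
  · intro ω ω' h
    refine ind_congr ?_
    unfold al lv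
    constructor
    · intro hh a ha
      rw [← h a ha]
      exact hh a ha
    · intro hh a ha
      rw [h a ha]
      exact hh a ha
  · intro ω ω' h
    congr 1
    ext v
    · by_cases hv : v ∈ S
      · simp [hv]
      · simp [hv, h v hv]
    · by_cases hv : v ∈ S
      · simp [hv]
      · simp [hv, h v hv]

end RSA_

open RSA_

theorem t_rsa (hIND : Stmt_IND) (hPRL : Stmt_PRL) : Stmt_RSA := by
  intro N n hn S i H hi hH
  rw [fact hIND hPRL hn S i hi H hH (i + 1) (Nat.le_succ i) (by omega),
    fact hIND hPRL hn S i hi H hH i (le_refl i) hi.le, ← mul_assoc, ← mul_pow]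
  congr 2
  have hni : (0 : ℝ) < (n : ℝ) - i := by
    have : (i : ℝ) < n := by exact_mod_cast hi
    linarith
  have hn0 : (0 : ℝ) < n := by exact_mod_cast hn
  push_cast
  field_simp
  ring

end Pool.Agent.PBL
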