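import Pool.Agent.PBL.Stmts

/-!
# PBL, module RSM: resampling a zombie
-/

namespace Pool.Agent.PBL

open Finset

namespace RSM_

variable {N n : ℕ}

/-- averaging over the label of `u` -/
theorem avg (u : Fin N) (f : Om N n → ℝ) :
    ∑ ω : Om N n, ∑ l : Lab n, f (Function.update ω u l) = (Fintype.card (Lab n) : ℝ) * ∑ ω, f ω := by
  have hinv : ∀ p : Om N n × Lab n, (fun q : Om N n × Lab n => (Function.update q.1 u q.2, q.1 u))
      ((fun q : Om N n × Lab n => (Function.update q.1 u q.2, q.1 u)) p) = p := by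
    rintro ⟨ω, l⟩
    simp
  let e : (Om N n × Lab n) ≃ (Om N n × Lab n) :=
    ⟨fun q => (Function.update q.1 u q.2, q.1 u), fun q => (Function.update q.1 u q.2, q.1 u), hinv, hinv⟩
  rw [← Fintype.sum_prod_type' (f := fun (ω : Om N n) (l : Lab n) => f (Function.update ω u l))]
  have h1 : ∑ q : Om N n × Lab n, f (Function.update q.1 u q.2) = ∑ q : Om N n × Lab n, f q.1 :=
    Fintype.sum_equiv e _ _ (fun q => rfl)
  rw [h1, Fintype.sum_prod_type]
  simp [Finset.mul_sum]

/-- the zombie `u` -/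
def Zc (F : Finset (Finset (Fin N))) (G K i : ℕ) (ω : Om N n) (u : Fin N) : Prop :=
  (Nc F ω i = 0 ∧ ∃ A ∈ F, u ∈ A ∧ lv ω u < i ∧ i ≤ lv ω u + G ∧
    (∀ a ∈ A, a ≠ u → i ≤ lv ω a ∧ lv ω a < n) ∧
    ∃ A' ∈ F, al ω (i - 3 * G) A' ∧ ∃ a ∈ A', a ≠ u ∧ lv ω a < i) ∧ Nc F ω (i - 3 * G) < K

/-- the vertex `u` is in a living set -/
def Yc (F : Finset (Finset (Fin N))) (G K i : ℕ) (ω : Om N n) (u : Fin N) : Prop :=
  u ∈ un F ω i ∧ LE F ω G K i

theorem lv_same (ω : Om N n) (u : Fin N) (l : Lab n) : lv (Function.update ω u l) u = (l.1 : ℕ) := by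
  unfold lv
  rw [Function.update_self]

theorem lv_ne (ω : Om N n) {u a : Fin N} (h : a ≠ u) (l : Lab n) : lv (Function.update ω u l) a = lv ω a := by
  unfold lv
  rw [Function.update_of_ne h]

/-- the move -/
theorem move {F : Finset (Finset (Fin N))} {G K i : ℕ} (hi : i < n) {ω : Om N n} {u : Fin N}
    (hZ : Zc F G K i ω u) (l : Lab n) (h1 : i ≤ (l.1 : ℕ)) (h2 : (l.1 : ℕ) < n) :
    Yc F G K i (Function.update ω u l) u := by
  obtain ⟨⟨h0, A, hA, huA, hu1, hu2, hrest, A', hA', hal', a, ha, hau, hai⟩, hK⟩ := hZ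
  have halA : al (Function.update ω u l) i A := by
    intro b hb
    by_cases hbu : b = u
    · subst hbu
      rw [lv_same]
      exact ⟨h1, h2⟩
    · rw [lv_ne ω hbu]
      exact hrest b hb hbu
  have hsame : ∀ S : Finset (Fin N), al (Function.update ω u l) (i - 3 * G) S ↔ al ω (i - 3 * G) S := by
    intro S
    constructor
    · intro h b hb
      by_cases hbu : b = u
      · subst hbu
        exact ⟨by omega, by omega⟩
      · have := h b hb
        rwa [lv_ne ω hbu] at this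
    · intro h b hb
      by_cases hbu : b = u
      · subst hbu
        rw [lv_same]
        exact ⟨by omega, h2⟩
      · rw [lv_ne ω hbu]
        exact h b hb
  have halv : alv F (Function.update ω u l) (i - 3 * G) = alv F ω (i - 3 * G) := by
    ext S
    rw [mem_alv, mem_alv, hsame]
  have hNc : Nc F (Function.update ω u l) (i - 3 * G) = Nc F ω (i - 3 * G) := by
    unfold Nc
    rw [halv]
  refine ⟨mem_un.2 ⟨A, hA, halA, huA⟩, one_le_Nc.2 ⟨A, hA, halA⟩, ?_, by rw [hNc]; exact hK⟩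
  refine Finset.card_lt_card ⟨alv_anti (Nat.sub_le _ _), fun hsub => ?_⟩
  have hm : A' ∈ alv F (Function.update ω u l) (i - 3 * G) := mem_alv.2 ⟨hA', (hsame A').2 hal'⟩
  have h3 := (mem_alv.1 (hsub hm)).2 a ha
  rw [lv_ne ω hau] at h3
  omega

theorem card_low (G i : ℕ) :
    ∑ l : Lab n, ind ((l.1 : ℕ) < i ∧ i ≤ (l.1 : ℕ) + G) ≤ 2 * (G : ℝ) := by
  classical
  rw [Fintype.sum_prod_type]
  have h1 : ∀ x : Fin (2 * n), ∑ b : Bool, ind (((x, b) : Lab n).1.val < i ∧ i ≤ ((x, b) : Lab n).1.val + G) =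
      2 * ind (x.val < i ∧ i ≤ x.val + G) := by
    intro x
    simp
  have h2 : ∑ x : Fin (2 * n), ind (x.val < i ∧ i ≤ x.val + G) ≤ (G : ℝ) := by
    have h3 : ∑ x : Fin (2 * n), ind (x.val < i ∧ i ≤ x.val + G) =
        ((Finset.univ.filter (fun x : Fin (2 * n) => x.val < i ∧ i ≤ x.val + G)).card : ℝ) := by
      rw [Finset.card_filter]
      push_cast
      refine Finset.sum_congr rfl (fun x _ => ?_)
      by_cases h : x.val < i ∧ i ≤ x.val + G
      · rw [ind_pos h, if_pos h]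
      · rw [ind_neg h, if_neg h]
    rw [h3]
    have h4 : (Finset.univ.filter (fun x : Fin (2 * n) => x.val < i ∧ i ≤ x.val + G)).card ≤
        (Finset.Ico (i - G) i).card := by
      refine Finset.card_le_card_of_injOn (fun x => x.val) ?_ ?_
      · intro x hx
        simp only [Finset.coe_filter, Finset.mem_univ, true_and, Set.mem_ofPred_eq] at hx
        simp only [Finset.coe_Ico, Set.mem_Ico]
        omega
      · intro x _ y _ hxy
        exact Fin.ext hxy
    rw [Nat.card_Ico] at h4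
    have h5 : i - (i - G) ≤ G := by omega
    exact_mod_cast h4.trans h5
  calc _ = ∑ x : Fin (2 * n), 2 * ind (x.val < i ∧ i ≤ x.val + G) := Finset.sum_congr rfl (fun x _ => h1 x)
    _ = 2 * ∑ x : Fin (2 * n), ind (x.val < i ∧ i ≤ x.val + G) := by rw [Finset.mul_sum]
    _ ≤ 2 * (G : ℝ) := by linarith

theorem card_high {i : ℕ} (hi : i < n) :
    2 * ((n : ℝ) - i) ≤ ∑ l : Lab n, ind (i ≤ (l.1 : ℕ) ∧ (l.1 : ℕ) < n) := by
  classical
  rw [Fintype.sum_prod_type]
  have h1 : ∀ x : Fin (2 * n), ∑ b : Bool, ind (i ≤ ((x, b) : Lab n).1.val ∧ ((x, b) : Lab n).1.val < n) =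
      2 * ind (i ≤ x.val ∧ x.val < n) := by
    intro x
    simp
  have h2 : (n : ℝ) - i ≤ ∑ x : Fin (2 * n), ind (i ≤ x.val ∧ x.val < n) := by
    have h3 : ∑ x : Fin (2 * n), ind (i ≤ x.val ∧ x.val < n) =
        ((Finset.univ.filter (fun x : Fin (2 * n) => i ≤ x.val ∧ x.val < n)).card : ℝ) := by
      rw [Finset.card_filter]
      push_cast
      refine Finset.sum_congr rfl (fun x _ => ?_)
      by_cases h : i ≤ x.val ∧ x.val < n
      · rw [ind_pos h, if_pos h]
      · rw [ind_neg h, if_neg h]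
    rw [h3]
    have h4 : (Finset.Ico i n).card ≤
        (Finset.univ.filter (fun x : Fin (2 * n) => i ≤ x.val ∧ x.val < n)).card := by
      refine Finset.card_le_card_of_injOn (fun k => if h : k < 2 * n then (⟨k, h⟩ : Fin (2 * n)) else ⟨0, by omega⟩) ?_ ?_
      · intro k hk
        simp only [Finset.coe_Ico, Set.mem_Ico] at hk
        have hk2 : k < 2 * n := by omega
        simp only [hk2, dite_true, Finset.coe_filter, Finset.mem_univ, true_and, Set.mem_ofPred_eq]
        omega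
      · intro k hk k' hk' hkk
        simp only [Finset.coe_Ico, Set.mem_Ico] at hk hk'
        have hk2 : k < 2 * n := by omega
        have hk2' : k' < 2 * n := by omega
        simp only [hk2, hk2', dite_true, Fin.mk.injEq] at hkk
        exact hkk
    rw [Nat.card_Ico] at h4
    have h5 : ((n - i : ℕ) : ℝ) = (n : ℝ) - i := by
      rw [Nat.cast_sub hi.le]
    rw [← h5]
    exact_mod_cast h4
  calc 2 * ((n : ℝ) - i) ≤ 2 * ∑ x : Fin (2 * n), ind (i ≤ x.val ∧ x.val < n) := by linarith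
    _ = ∑ x : Fin (2 * n), 2 * ind (i ≤ x.val ∧ x.val < n) := by rw [Finset.mul_sum]
    _ = _ := (Finset.sum_congr rfl (fun x _ => h1 x)).symm

/-- fibrewise -/
theorem fibre (F : Finset (Finset (Fin N))) (G K : ℕ) {i : ℕ} (hi : i < n) (ω : Om N n) (u : Fin N) :
    ((n : ℝ) - i) * ∑ l : Lab n, ind (Zc F G K i (Function.update ω u l) u) ≤
      (G : ℝ) * ∑ l : Lab n, ind (Yc F G K i (Function.update ω u l) u) := by
  have hni : (0 : ℝ) < (n : ℝ) - i := by
    have : (i : ℝ) < n := by exact_mod_cast hi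
    linarith
  by_cases hex : ∃ l0 : Lab n, Zc F G K i (Function.update ω u l0) u
  · obtain ⟨l0, hl0⟩ := hex
    have h1 : ∑ l : Lab n, ind (Zc F G K i (Function.update ω u l) u) ≤ 2 * (G : ℝ) := by
      refine le_trans (Finset.sum_le_sum (fun l _ => ind_mono ?_)) (card_low (n := n) G i)
      intro hZ
      obtain ⟨⟨_, A, _, _, hu1, hu2, _⟩, _⟩ := hZ
      rw [lv_same] at hu1 hu2
      exact ⟨hu1, hu2⟩
    have h2 : 2 * ((n : ℝ) - i) ≤ ∑ l : Lab n, ind (Yc F G K i (Function.update ω u l) u) := by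
      refine (card_high hi).trans (Finset.sum_le_sum (fun l _ => ind_mono ?_))
      rintro ⟨ha, hb⟩
      have := move hi hl0 l ha hb
      rwa [Function.update_idem] at this
    have hG : (0 : ℝ) ≤ G := Nat.cast_nonneg G
    calc ((n : ℝ) - i) * ∑ l : Lab n, ind (Zc F G K i (Function.update ω u l) u) ≤ ((n : ℝ) - i) * (2 * G) :=
          mul_le_mul_of_nonneg_left h1 hni.le
      _ = (G : ℝ) * (2 * ((n : ℝ) - i)) := by ring
      _ ≤ _ := mul_le_mul_of_nonneg_left h2 hG
  · push Not at hex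
    have h1 : ∑ l : Lab n, ind (Zc F G K i (Function.update ω u l) u) = 0 :=
      Finset.sum_eq_zero (fun l _ => ind_neg (hex l))
    rw [h1, mul_zero]
    exact mul_nonneg (Nat.cast_nonneg G) (Finset.sum_nonneg (fun l _ => ind_nonneg _))

theorem perU (hn : 1 ≤ n) (F : Finset (Finset (Fin N))) (G K : ℕ) {i : ℕ} (hi : i < n) (u : Fin N) :
    ((n : ℝ) - i) * Ex (fun ω : Om N n => ind (Zc F G K i ω u)) ≤
      (G : ℝ) * Ex (fun ω : Om N n => ind (Yc F G K i ω u)) := by
  have hL : (0 : ℝ) < (Fintype.card (Lab n) : ℝ) := by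
    rw [card_Lab]
    have : 0 < 4 * n := by omega
    exact_mod_cast this
  have h1 : ∑ ω : Om N n, (((n : ℝ) - i) * ∑ l : Lab n, ind (Zc F G K i (Function.update ω u l) u)) ≤
      ∑ ω : Om N n, ((G : ℝ) * ∑ l : Lab n, ind (Yc F G K i (Function.update ω u l) u)) :=
    Finset.sum_le_sum (fun ω _ => fibre F G K hi ω u)
  rw [← Finset.mul_sum, ← Finset.mul_sum, avg u (fun ω => ind (Zc F G K i ω u)),
    avg u (fun ω => ind (Yc F G K i ω u))] at h1
  have h2 : ((n : ℝ) - i) * ∑ ω : Om N n, ind (Zc F G K i ω u) ≤ (G : ℝ) * ∑ ω : Om N n, ind (Yc F G K i ω u) := by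
    refine le_of_mul_le_mul_left ?_ hL
    linarith
  unfold Ex
  rw [← mul_div_assoc, ← mul_div_assoc]
  exact div_le_div_of_nonneg_right h2 card_Om_nonneg

end RSM_

open RSM_

theorem t_rsm : Stmt_RSM := by
  intro N n hn F G K i hi
  have hni : (0 : ℝ) < (n : ℝ) - i := by
    have : (i : ℝ) < n := by exact_mod_cast hi
    linarith
  have h1 : Pr (fun ω : Om N n => UncZ F ω G i ∧ Nc F ω (i - 3 * G) < K) ≤
      ∑ u : Fin N, Ex (fun ω : Om N n => ind (Zc F G K i ω u)) := by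
    rw [← Ex_sum]
    unfold Pr
    refine Ex_mono (fun ω => ?_)
    refine le_trans (ind_mono (q := ∃ u ∈ (Finset.univ : Finset (Fin N)), Zc F G K i ω u) ?_)
      (ind_exists_le _ _)
    rintro ⟨⟨h0, A, hA, u, huA, hu1, hu2, hrest, h3⟩, hK⟩
    exact ⟨u, Finset.mem_univ _, ⟨h0, A, hA, huA, hu1, hu2, hrest, h3⟩, hK⟩
  have h2 : Ex (fun ω : Om N n => ((un F ω i).card : ℝ) * ind (LE F ω G K i)) =
      ∑ u : Fin N, Ex (fun ω : Om N n => ind (Yc F G K i ω u)) := by
    rw [← Ex_sum]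
    refine Ex_congr (fun ω => ?_)
    unfold Yc
    simp_rw [ind_and]
    rw [← Finset.sum_mul]
    congr 1
    have h3 : ∀ u : Fin N, ind (u ∈ un F ω i) = if u ∈ un F ω i then (1 : ℝ) else 0 := by
      intro u
      by_cases h : u ∈ un F ω i
      · rw [ind_pos h, if_pos h]
      · rw [ind_neg h, if_neg h]
    simp_rw [h3]
    simp
  rw [h2]
  calc ((n : ℝ) - i) * Pr (fun ω : Om N n => UncZ F ω G i ∧ Nc F ω (i - 3 * G) < K) ≤
        ((n : ℝ) - i) * ∑ u : Fin N, Ex (fun ω : Om N n => ind (Zc F G K i ω u)) :=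
        mul_le_mul_of_nonneg_left h1 hni.le
    _ = ∑ u : Fin N, ((n : ℝ) - i) * Ex (fun ω : Om N n => ind (Zc F G K i ω u)) := by rw [Finset.mul_sum]
    _ ≤ ∑ u : Fin N, (G : ℝ) * Ex (fun ω : Om N n => ind (Yc F G K i ω u)) :=
        Finset.sum_le_sum (fun u _ => perU hn F G K hi u)
    _ = (G : ℝ) * ∑ u : Fin N, Ex (fun ω : Om N n => ind (Yc F G K i ω u)) := by rw [Finset.mul_sum]

end Pool.Agent.PBL
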