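import Pool.Agent.PBL.Stmts

/-!
# PBL, module SIB: the number of labels of `v` for which `v` is picked
-/

namespace Pool.Agent.PBL

open Finset

namespace SIB_

variable {N n : ℕ}

theorem lv_same (ω : Om N n) (u : Fin N) (l : Lab n) : lv (Function.update ω u l) u = (l.1 : ℕ) := by
  unfold lv
  rw [Function.update_self]

theorem lv_ne (ω : Om N n) {u a : Fin N} (h : a ≠ u) (l : Lab n) : lv (Function.update ω u l) a = lv ω a := by
  unfold lv
  rw [Function.update_of_ne h]

theorem lz_same (ω : Om N n) (u : Fin N) (l : Lab n) : lz (Function.update ω u l) u ↔ l.2 = true := by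
  unfold lz
  rw [Function.update_self]

theorem lz_ne (ω : Om N n) {u a : Fin N} (h : a ≠ u) (l : Lab n) : lz (Function.update ω u l) a ↔ lz ω a := by
  unfold lz
  rw [Function.update_of_ne h]

theorem before_le {ω : Om N n} {u v : Fin N} (h : before ω u v) : lv ω u ≤ lv ω v := by
  rcases h with h | h
  · exact h.le
  · exact h.1.le

/-- what a pick says -/
theorem key (E : Finset (Finset (Fin N))) (G Θ : ℕ) (g : Finset (Fin N)) (v : Fin N) (ω : Om N n)
    (x : Fin (2 * n)) (b : Bool) (h : Av G Θ E g (Function.update ω v (x, b)) v) :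
    zom (fam E g v) ω G Θ x ∨ ((1 ≤ Nc (fam E g v) ω x ∧ (x : ℕ) < Θ) ∧
      (b = true → 1 ≤ Nc (fam E g v) ω (x + G + 1))) := by
  classical
  obtain ⟨e, heE, heg, hlt, u, w, hP, huΘ⟩ := h
  have hve : v ∈ e := by
    have : v ∈ e ∩ g := by rw [heg]; exact Finset.mem_singleton_self v
    exact (Finset.mem_inter.1 this).1
  have hA : e.erase v ∈ fam E g v := by
    unfold fam
    exact Finset.mem_image.2 ⟨e, Finset.mem_filter.2 ⟨heE, heg⟩, rfl⟩
  have hltA : ∀ a ∈ e.erase v, lv ω a < n := by
    intro a ha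
    rw [Finset.mem_erase] at ha
    have := hlt a ha.2
    rwa [lv_ne ω ha.1] at this
  rcases hP.pick with ⟨hlz, hgap, hvw⟩ | ⟨hno, hvu⟩
  · left
    have huv : u ≠ v := by
      rw [hvw]
      exact hP.hne.symm
    rw [← hvw] at hgap
    rw [lv_same, lv_ne ω huv] at hgap
    rw [lz_ne ω huv] at hlz
    rw [lv_ne ω huv] at huΘ
    have hb := before_le (hP.top v hve (Ne.symm huv))
    rw [lv_same, lv_ne ω huv] at hb
    refine ⟨e.erase v, hA, u, Finset.mem_erase.2 ⟨huv, hP.hu⟩, hlz, hb, hgap, huΘ, ?_⟩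
    intro a ha hau
    refine ⟨?_, hltA a ha⟩
    rw [Finset.mem_erase] at ha
    have h2 := before_le (hP.sec a ha.2 hau (by rw [← hvw]; exact ha.1))
    rw [← hvw, lv_same, lv_ne ω ha.1] at h2
    exact h2
  · right
    have hwv : w ≠ v := by
      rw [hvu]
      exact hP.hne
    have hal : al ω x (e.erase v) := by
      intro a ha
      refine ⟨?_, hltA a ha⟩
      rw [Finset.mem_erase] at ha
      have h2 := before_le (hP.top a ha.2 (by rw [← hvu]; exact ha.1))
      rw [← hvu, lv_same, lv_ne ω ha.1] at h2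
      exact h2
    rw [← hvu, lv_same] at huΘ
    refine ⟨⟨one_le_Nc.2 ⟨_, hA, hal⟩, huΘ⟩, fun hbt => one_le_Nc.2 ⟨_, hA, ?_⟩⟩
    rw [← hvu, lv_same, lv_ne ω hwv, lz_same] at hno
    have hgap : (x : ℕ) + G < lv ω w := by
      by_contra hc
      exact hno ⟨hbt, by simpa using hc⟩
    intro a ha
    refine ⟨?_, hltA a ha⟩
    rw [Finset.mem_erase] at ha
    by_cases haw : a = w
    · subst haw
      omega
    · have h2 := before_le (hP.sec a ha.2 (by rw [← hvu]; exact ha.1) haw)
      rw [lv_ne ω hwv, lv_ne ω ha.1] at h2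
      omega

theorem perx (E : Finset (Finset (Fin N))) (G Θ : ℕ) (g : Finset (Fin N)) (v : Fin N) (ω : Om N n)
    (x : Fin (2 * n)) :
    ∑ b : Bool, ind (((x, b) : Lab n).1.val < n ∧ Av G Θ E g (Function.update ω v (x, b)) v) ≤
      if (x : ℕ) < n then 2 * sb (fam E g v) ω G Θ x else 0 := by
  classical
  by_cases hx : (x : ℕ) < n
  · rw [if_pos hx, Fintype.sum_bool]
    have h1 := key E G Θ g v ω x true
    have h2 := key E G Θ g v ω x false
    have b1 := ind_le_one (((x, true) : Lab n).1.val < n ∧ Av G Θ E g (Function.update ω v (x, true)) v)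
    have b2 := ind_le_one (((x, false) : Lab n).1.val < n ∧ Av G Θ E g (Function.update ω v (x, false)) v)
    unfold sb
    split_ifs with c1 c2 c3
    · linarith
    · rw [ind_neg (p := ((x, true) : Lab n).1.val < n ∧ Av G Θ E g (Function.update ω v (x, true)) v)]
      · linarith
      · rintro ⟨_, ha⟩
        rcases h1 ha with h | ⟨_, h⟩
        · exact c1 h
        · have := h rfl
          omega
    · linarith
    · rw [ind_neg (p := ((x, true) : Lab n).1.val < n ∧ Av G Θ E g (Function.update ω v (x, true)) v),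
        ind_neg (p := ((x, false) : Lab n).1.val < n ∧ Av G Θ E g (Function.update ω v (x, false)) v)]
      · norm_num
      · rintro ⟨_, ha⟩
        rcases h2 ha with h | ⟨h, _⟩
        · exact c1 h
        · exact c2 h
      · rintro ⟨_, ha⟩
        rcases h1 ha with h | ⟨h, _⟩
        · exact c1 h
        · exact c2 h
  · rw [if_neg hx]
    refine le_of_eq (Finset.sum_eq_zero (fun b _ => ind_neg ?_))
    rintro ⟨h, _⟩
    exact hx h

end SIB_

open SIB_

theorem t_sib : Stmt_SIB := by
  intro N n hn E hE G Θ g v hv ω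
  rw [Fintype.sum_prod_type]
  refine (Finset.sum_le_sum (fun x _ => perx E G Θ g v ω x)).trans (le_of_eq ?_)
  rw [Fin.sum_univ_eq_sum_range (fun i => if i < n then 2 * sb (fam E g v) ω G Θ i else 0) (2 * n)]
  unfold zb
  rw [Finset.mul_sum, ← Finset.sum_filter]
  refine Finset.sum_congr ?_ (fun _ _ => rfl)
  ext i
  simp only [Finset.mem_filter, Finset.mem_range]
  omega

end Pool.Agent.PBL
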