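import Pool.Agent.PBL.Stmts

/-! Module SZB: size bias, the immortal set. -/

namespace Pool.Agent.PBL

open Finset

namespace SZB_

variable {N n : ℕ}

theorem alA_off (F : Finset (Finset (Fin N))) (A : Finset (Fin N)) (ω ω' : Om N n)
    (h : ∀ v, v ∉ A → ω v = ω' v) (j : ℕ) : alA F A ω j = alA F A ω' j := by
  ext A'
  rw [mem_alA, mem_alA]
  have hl : ∀ a ∈ A' \ A, lv ω a = lv ω' a := by
    intro a ha
    rw [Finset.mem_sdiff] at ha
    unfold lv
    rw [h a ha.2]
  unfold al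
  constructor
  · rintro ⟨h2, h3⟩
    refine ⟨h2, fun a ha => ?_⟩
    rw [← hl a ha]
    exact h3 a ha
  · rintro ⟨h2, h3⟩
    refine ⟨h2, fun a ha => ?_⟩
    rw [hl a ha]
    exact h3 a ha

theorem NA_off (F : Finset (Finset (Fin N))) (A : Finset (Fin N)) (ω ω' : Om N n)
    (h : ∀ v, v ∉ A → ω v = ω' v) (j : ℕ) : NA F A ω j = NA F A ω' j := by
  unfold NA
  rw [alA_off F A ω ω' h]

theorem kap_off (F : Finset (Finset (Fin N))) (A : Finset (Fin N)) (ω ω' : Om N n)
    (h : ∀ v, v ∉ A → ω v = ω' v) (j : ℕ) : kap F A ω j = kap F A ω' j := by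
  unfold kap
  rw [alA_off F A ω ω' h]

theorem pr_al (hPRL : Stmt_PRL) (hn : 2 ≤ n) (A : Finset (Fin N)) (hA : A.card = n - 1)
    (i : ℕ) (hi : i < n) :
    Ex (fun ω : Om N n => ind (al ω i A)) = (((n : ℝ) - i) / (2 * n)) ^ (n - 1) := by
  have h1 := hPRL N n (by omega) A (fun _ => Finset.Ico i n) (by
    intro v _ a ha
    rw [Finset.mem_Ico] at ha
    rw [Finset.mem_range]
    omega)
  rw [Finset.prod_const, hA, Nat.card_Ico, Nat.cast_sub hi.le] at h1
  rw [← h1]
  unfold Pr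
  apply Ex_congr
  intro ω
  apply ind_congr
  unfold al
  constructor
  · intro h v hv
    rw [Finset.mem_Ico]
    exact h v hv
  · intro h v hv
    exact Finset.mem_Ico.1 (h v hv)

end SZB_

theorem t_szb (hIND : Stmt_IND) (hPRL : Stmt_PRL) (hSZA : Stmt_SZA) : Stmt_SZB := by
  intro N n hn F hF G K i hi
  have e1 : ∀ A ∈ F, (((n : ℝ) - i) / (2 * n)) ^ (n - 1) *
        Ex (fun ω : Om N n =>
          ind (NA F A ω i < NA F A ω (i - 3 * G) ∧ NA F A ω (i - 3 * G) < K) *
            (1 + G * (((n : ℝ) - 1) / ((n : ℝ) - i) + kap F A ω i)) / (NA F A ω i : ℝ)) =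
      Ex (fun ω : Om N n => ind (al ω i A) *
        (ind (NA F A ω i < NA F A ω (i - 3 * G) ∧ NA F A ω (i - 3 * G) < K) *
            (1 + G * (((n : ℝ) - 1) / ((n : ℝ) - i) + kap F A ω i)) / (NA F A ω i : ℝ))) := by
    intro A hA
    rw [← SZB_.pr_al hPRL hn A (hF A hA) i hi]
    symm
    apply hIND N n (by omega) A
    · intro ω ω' h
      apply ind_congr
      unfold al lv
      constructor
      · intro h1 a ha
        rw [← h a ha]
        exact h1 a ha
      · intro h1 a ha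
        rw [h a ha]
        exact h1 a ha
    · intro ω ω' h
      simp only [SZB_.NA_off F A ω ω' h, SZB_.kap_off F A ω ω' h]
  rw [Finset.sum_congr rfl e1, ← Ex_sum]
  apply Ex_mono
  intro ω
  exact hSZA N n hn F hF G K i hi ω

end Pool.Agent.PBL
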