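import Pool.Agent.PBL.Api

/-! Statements of the modules.  Each module `XXX` proves `theorem t_xxx : Stmt_XXX`, with the
statements in its list `uses` as hypotheses. -/

namespace Pool.Agent.PBL

open Finset

/-! ### A. product probability -/

/-- independence of two disjoint sets of coordinates -/
def Stmt_IND : Prop :=
  ∀ (N n : ℕ) (_ : 1 ≤ n) (S : Finset (Fin N)) (F H : Om N n → ℝ),
    (∀ ω ω' : Om N n, (∀ v ∈ S, ω v = ω' v) → F ω = F ω') →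
    (∀ ω ω' : Om N n, (∀ v, v ∉ S → ω v = ω' v) → H ω = H ω') →
    Ex (fun ω => F ω * H ω) = Ex F * Ex H

/-- product sets of labels -/
def Stmt_PRB : Prop :=
  ∀ (N n : ℕ) (_ : 1 ≤ n) (S : Finset (Fin N)) (T : Fin N → Finset (Lab n)),
    Pr (fun ω : Om N n => ∀ v ∈ S, ω v ∈ T v) = ∏ v ∈ S, ((T v).card : ℝ) / (4 * n)

/-- product sets of levels -/
def Stmt_PRL : Prop :=
  ∀ (N n : ℕ) (_ : 1 ≤ n) (S : Finset (Fin N)) (L : Fin N → Finset ℕ),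
    (∀ v ∈ S, L v ⊆ range (2 * n)) →
    Pr (fun ω : Om N n => ∀ v ∈ S, lv ω v ∈ L v) = ∏ v ∈ S, ((L v).card : ℝ) / (2 * n)

/-- resampling a set `S` of vertices: average over `S` given the rest -/
def Stmt_PWC : Prop :=
  ∀ (N n : ℕ) (_ : 1 ≤ n) (S : Finset (Fin N)) (F : Om N n → ℝ),
    Ex F = Ex (fun ω : Om N n => Ex (fun ω' : Om N n => F (fun v => if v ∈ S then ω' v else ω v)))

/-! ### B. the deterministic part -/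

/-- abstract greedy algorithm -/
def Stmt_GRE : Prop :=
  ∀ (N : ℕ) (M : Finset (Finset (Fin N))) (t : Finset (Fin N) → ℕ) (pk : Finset (Fin N) → Fin N),
    (∀ e ∈ M, pk e ∈ e) →
    ∃ (R : Finset (Fin N)) (wit : Fin N → Finset (Fin N)),
      (∀ e ∈ M, ∃ v ∈ e, v ∈ R) ∧
      (∀ v ∈ R, wit v ∈ M ∧ pk (wit v) = v) ∧
      (∀ v ∈ R, ∀ v' ∈ R, v' ≠ v → v' ∈ wit v → t (wit v') ≤ t (wit v))

/-- existence of the pick -/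
def Stmt_PKX : Prop :=
  ∀ (N n : ℕ) (ω : Om N n) (G : ℕ) (e : Finset (Fin N)), 2 ≤ e.card →
    ∃ u w v, Pick ω G e u w v ∧ v ∈ e ∧ (∀ a ∈ e, lv ω u ≤ lv ω a) ∧ lv ω v ≤ lv ω u + G

/-- outside the bad events, the side `B` can be repaired -/
def Stmt_DET : Prop :=
  ∀ (N n : ℕ) (_ : 2 ≤ n) (E : Finset (Finset (Fin N))) (_ : ∀ e ∈ E, e.card = n) (G Θ : ℕ)
    (ω : Om N n), ¬ EvD Θ E ω → ¬ EvM G Θ E ω → (∀ g ∈ E, ¬ EvG G Θ E g ω) → Good E ω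

/-- a colouring from the two sides -/
def Stmt_RED : Prop :=
  ∀ (N n : ℕ) (_ : 1 ≤ n) (E : Finset (Finset (Fin N))) (_ : ∀ e ∈ E, e.card = n),
    Pr (fun ω : Om N n => ¬ Good E ω) < 1 / 2 →
    ∃ c : Fin N → Bool, ∀ e ∈ E, ∃ x ∈ e, ∃ y ∈ e, c x ≠ c y

/-! ### C. the first two bad events -/

def Stmt_PRD : Prop :=
  ∀ (N n : ℕ) (_ : 1 ≤ n) (E : Finset (Finset (Fin N))) (_ : ∀ e ∈ E, e.card = n) (Θ : ℕ),
    Θ ≤ n → Pr (fun ω : Om N n => EvD Θ E ω) ≤ (E.card : ℝ) / 2 ^ n * Real.exp (-(Θ : ℝ))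

/-- one pair of edges and one value of `t` -/
def Stmt_PRP : Prop :=
  ∀ (N n : ℕ) (_ : 2 ≤ n) (e g : Finset (Fin N)) (G Θ t : ℕ), e.card = n → g.card = n →
    2 ≤ (e ∩ g).card → 2 * (G + 1) ≤ n → Θ + G ≤ n → t < Θ →
    Pr (fun ω : Om N n => (∀ v ∈ e ∩ g, t ≤ lv ω v ∧ lv ω v ≤ t + G) ∧
      (∀ v ∈ e \ g, t ≤ lv ω v ∧ lv ω v < n) ∧
      (∀ v ∈ g \ e, n ≤ lv ω v ∨ lv ω v < Θ + G)) ≤
      (1 / 2 ^ n) ^ 2 * (4 * ((G : ℝ) + 1) ^ 2 / n ^ 2) * Real.exp ((Θ : ℝ) + G)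

def Stmt_PRM : Prop :=
  ∀ (N n : ℕ) (_ : 2 ≤ n) (E : Finset (Finset (Fin N))) (_ : ∀ e ∈ E, e.card = n) (G Θ : ℕ),
    2 * (G + 1) ≤ n → Θ + G ≤ n →
    Pr (fun ω : Om N n => EvM G Θ E ω) ≤
      ((E.card : ℝ) / 2 ^ n) ^ 2 * Θ * (4 * ((G : ℝ) + 1) ^ 2 / n ^ 2) *
        Real.exp ((Θ : ℝ) + G)

/-! ### D. the bad event of an edge `g` -/

/-- the number of labels of `v` for which `v` is picked -/
def Stmt_SIB : Prop :=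
  ∀ (N n : ℕ) (_ : 2 ≤ n) (E : Finset (Finset (Fin N))) (_ : ∀ e ∈ E, e.card = n) (G Θ : ℕ)
    (g : Finset (Fin N)) (v : Fin N), v ∈ g → ∀ ω : Om N n,
    ∑ l : Lab n, ind ((l.1 : ℕ) < n ∧ Av G Θ E g (Function.update ω v l) v) ≤
      2 * zb (fam E g v) ω G Θ

/-- `Av` only depends on the label of `v` and on the labels outside `g` -/
def Stmt_AVL : Prop :=
  ∀ (N n : ℕ) (E : Finset (Finset (Fin N))) (G Θ : ℕ) (g : Finset (Fin N)) (v : Fin N)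
    (ω ω' : Om N n), v ∈ g → ω v = ω' v → (∀ a, a ∉ g → ω a = ω' a) →
    (Av G Θ E g ω v ↔ Av G Θ E g ω' v)

/-- product bound for the bad event of `g` -/
def Stmt_PRG : Prop :=
  ∀ (N n : ℕ) (_ : 2 ≤ n) (E : Finset (Finset (Fin N))) (_ : ∀ e ∈ E, e.card = n) (G Θ : ℕ),
    ∀ g ∈ E, Pr (fun ω : Om N n => EvG G Θ E g ω) ≤
      (1 / 2 ^ n) * Ex (fun ω : Om N n =>
        (∏ v ∈ g, (1 + zb (fam E g v) ω G Θ / n)) - 1)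

/-- Jensen -/
def Stmt_JEN : Prop :=
  ∀ (N n : ℕ) (_ : 1 ≤ n) (g : Finset (Fin N)) (x : Fin N → ℝ), g.card = n →
    (∀ v ∈ g, 0 ≤ x v) →
    (∏ v ∈ g, (1 + x v / n)) - 1 ≤ (1 / n) * ∑ v ∈ g, (Real.exp (x v) - 1)

/-- the sizes of the families -/
def Stmt_FAM : Prop :=
  ∀ (N n : ℕ) (E : Finset (Finset (Fin N))) (_ : ∀ e ∈ E, e.card = n) (g : Finset (Fin N)),
    (∀ v, ∀ A ∈ fam E g v, A.card = n - 1) ∧ ∑ v ∈ g, (fam E g v).card ≤ E.card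

/-! ### E. the key lemma -/

/-- first moment of the number of alive sets -/
def Stmt_FMA : Prop :=
  ∀ (N n : ℕ) (_ : 2 ≤ n) (F : Finset (Finset (Fin N))) (_ : ∀ A ∈ F, A.card = n - 1) (j : ℕ),
    4 * j ≤ n → Ex (fun ω : Om N n => (Nc F ω j : ℝ)) ≤ 2 * mu n F * Real.exp (-(j : ℝ))

/-- first moment of the zombies -/
def Stmt_FMZ : Prop :=
  ∀ (N n : ℕ) (_ : 2 ≤ n) (F : Finset (Finset (Fin N))) (_ : ∀ A ∈ F, A.card = n - 1)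
    (I : Finset ℕ) (m : ℕ), 4 * m ≤ n →
    Pr (fun ω : Om N n => ZD F ω I m) ≤ (I.card : ℝ) * (2 * mu n F * Real.exp (-(m : ℝ)))

/-- deterministic bound, used in the case of a set alive at `Θ` -/
def Stmt_ZBA : Prop :=
  ∀ (N n : ℕ) (F : Finset (Finset (Fin N))) (G Θ : ℕ) (ω : Om N n),
    Real.exp (zb F ω G Θ) ≤ Real.exp Θ +
      ∑ l ∈ Ico Θ (Θ + G), Real.exp ((l : ℝ) + 1) * ind (zom F ω G Θ l)

/-- deterministic bound, case of no set alive at `Θ` -/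
def Stmt_ZBB : Prop :=
  ∀ (N n : ℕ) (_ : 2 ≤ n) (F : Finset (Finset (Fin N))) (_ : ∀ A ∈ F, A.card = n - 1) (G Θ : ℕ)
    (ω : Om N n), 1 ≤ G → Θ + G ≤ n → Nc F ω Θ = 0 → 1 ≤ Nc F ω 0 →
    ∃ D M : ℕ, D < Θ ∧ D ≤ M ∧ M ≤ D + G ∧ 1 ≤ Nc F ω D ∧ Nc F ω (D + 1) = 0 ∧
      (M = D ∨ (D < M ∧ zom F ω G Θ M)) ∧
      zb F ω G Θ ≤ (M : ℝ) + 1 ∧
      (Nc F ω (D - 2 * G) = Nc F ω D → zb F ω G Θ ≤ (M : ℝ) + 1 - (min G D : ℕ) / 2)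

/-- a zombie after the last alive level, clean case -/
def Stmt_ZBC : Prop :=
  ∀ (N n : ℕ) (F : Finset (Finset (Fin N))) (G Θ : ℕ)
    (ω : Om N n) (D M : ℕ), 1 ≤ G → Θ ≤ n → D < M → M ≤ D + G → 1 ≤ Nc F ω D → Nc F ω (D + 1) = 0 →
    zom F ω G Θ M → Nc F ω (D - 2 * G) = Nc F ω D → ZD F ω {D} M

/-- a zombie after the last alive level, unclean case -/
def Stmt_ZBU : Prop :=
  ∀ (N n : ℕ) (F : Finset (Finset (Fin N))) (G Θ : ℕ)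
    (ω : Om N n) (D M : ℕ), 1 ≤ G → Θ ≤ n → D < M → M ≤ D + G → 1 ≤ Nc F ω D → Nc F ω (D + 1) = 0 →
    zom F ω G Θ M → Nc F ω D < Nc F ω (D - 2 * G) → UncZ F ω G M

/-- the deterministic bound -/
def Stmt_ZBD : Prop :=
  ∀ (N n : ℕ) (_ : 2 ≤ n) (F : Finset (Finset (Fin N))) (_ : ∀ A ∈ F, A.card = n - 1) (G Θ : ℕ)
    (ω : Om N n), 1 ≤ G → Θ + G ≤ n →
    Real.exp (zb F ω G Θ) - 1 ≤
      Real.exp Θ * ind (1 ≤ Nc F ω Θ) +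
      ∑ l ∈ Ico Θ (Θ + G), Real.exp ((l : ℝ) + 1) * ind (zom F ω G Θ l) +
      ∑ d ∈ range Θ, Real.exp ((d : ℝ) + 1 - (min G d : ℕ) / 2) * ind (1 ≤ Nc F ω d) +
      ∑ d ∈ range Θ, ∑ m ∈ Ioc d (d + G),
        Real.exp ((m : ℝ) + 1 - (min G d : ℕ) / 2) * ind (ZD F ω {d} m) +
      ∑ i ∈ range (Θ + G), Real.exp ((i : ℝ) + 1) *
        (ind (1 ≤ Nc F ω i ∧ Nc F ω i < Nc F ω (i - 3 * G)) + ind (UncZ F ω G i))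

/-- resampling a zombie -/
def Stmt_RSM : Prop :=
  ∀ (N n : ℕ) (_ : 1 ≤ n) (F : Finset (Finset (Fin N))) (G K i : ℕ), i < n →
    ((n : ℝ) - i) * Pr (fun ω : Om N n => UncZ F ω G i ∧ Nc F ω (i - 3 * G) < K) ≤
      (G : ℝ) * Ex (fun ω : Om N n => ((un F ω i).card : ℝ) * ind (LE F ω G K i))

/-- size bias, deterministic part -/
def Stmt_SZA : Prop :=
  ∀ (N n : ℕ) (_ : 2 ≤ n) (F : Finset (Finset (Fin N))) (_ : ∀ A ∈ F, A.card = n - 1)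
    (G K i : ℕ) (_ : i < n) (ω : Om N n),
    ind (LE F ω G K i) * (1 + G * ((un F ω i).card : ℝ) / ((n : ℝ) - i)) ≤
      ∑ A ∈ F, ind (al ω i A) *
        (ind (NA F A ω i < NA F A ω (i - 3 * G) ∧ NA F A ω (i - 3 * G) < K) *
            (1 + G * (((n : ℝ) - 1) / ((n : ℝ) - i) + kap F A ω i)) / (NA F A ω i : ℝ))

/-- size bias: the immortal set -/
def Stmt_SZB : Prop :=
  ∀ (N n : ℕ) (_ : 2 ≤ n) (F : Finset (Finset (Fin N))) (_ : ∀ A ∈ F, A.card = n - 1)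
    (G K i : ℕ), i < n →
    Ex (fun ω : Om N n => ind (LE F ω G K i) * (1 + G * ((un F ω i).card : ℝ) / ((n : ℝ) - i))) ≤
      ∑ A ∈ F, (((n : ℝ) - i) / (2 * n)) ^ (n - 1) *
        Ex (fun ω : Om N n =>
          ind (NA F A ω i < NA F A ω (i - 3 * G) ∧ NA F A ω (i - 3 * G) < K) *
            (1 + G * (((n : ℝ) - 1) / ((n : ℝ) - i) + kap F A ω i)) / (NA F A ω i : ℝ))

/-- pathwise lemma on hits -/
def Stmt_PTA : Prop :=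
  ∀ (a : ℕ → ℕ) (_ : Antitone a) (_ : ∀ i, 1 ≤ a i) (R K T : ℕ),
    ∑ i ∈ range T, ind (a i < a (i - R) ∧ a (i - R) < K) / (a i : ℝ) ≤ 2 * R * Hm K

/-- pathwise lemma on decrements -/
def Stmt_PTB : Prop :=
  ∀ (a : ℕ → ℕ) (_ : Antitone a) (_ : ∀ i, 1 ≤ a i) (K T : ℕ),
    ∑ i ∈ range T, ((a i : ℝ) - a (i + 1)) * (ind (a i < K) / (a i : ℝ)) ≤ Hm K

/-- one more level, for a function of the pattern `i ≤ level < n` only -/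
def Stmt_RSA : Prop :=
  ∀ (N n : ℕ) (_ : 1 ≤ n) (S : Finset (Fin N)) (i : ℕ) (H : Om N n → ℝ), i < n →
    (∀ ω ω' : Om N n, (∀ v, (i ≤ lv ω v ∧ lv ω v < n) ↔ (i ≤ lv ω' v ∧ lv ω' v < n)) →
      H ω = H ω') →
    Ex (fun ω => ind (al ω (i + 1) S) * H ω) =
      (((n : ℝ) - i - 1) / ((n : ℝ) - i)) ^ S.card * Ex (fun ω => ind (al ω i S) * H ω)

/-- the hazard rate -/
def Stmt_RES : Prop :=
  ∀ (N n : ℕ) (_ : 2 ≤ n) (F : Finset (Finset (Fin N))) (_ : ∀ A ∈ F, A.card = n - 1)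
    (A : Finset (Fin N)) (K i : ℕ), 4 * i < n →
    Ex (fun ω : Om N n => kap F A ω i * psi F A K ω i) ≤
      3 * Ex (fun ω : Om N n => ((NA F A ω i : ℝ) - NA F A ω (i + 1)) * psi F A K ω i)

/-- total of the light part -/
def Stmt_LGT : Prop :=
  ∀ (N n : ℕ) (_ : 2 ≤ n) (F : Finset (Finset (Fin N))) (_ : ∀ A ∈ F, A.card = n - 1)
    (G K T : ℕ), 1 ≤ G → 4 * T ≤ n →
    ∑ i ∈ range T, Real.exp ((i : ℝ) + 1) *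
      Ex (fun ω : Om N n => ind (LE F ω G K i) *
        (1 + G * ((un F ω i).card : ℝ) / ((n : ℝ) - i))) ≤
      42 * Real.exp 1 * G ^ 2 * Hm K * mu n F

/-- expectation of the deterministic bound -/
def Stmt_KEA : Prop :=
  ∀ (N n : ℕ) (F : Finset (Finset (Fin N))) (_ : ∀ A ∈ F, A.card = n - 1) (G Θ : ℕ),
    1 ≤ G → (Θ : ℝ) ≤ Real.exp ((G : ℝ) / 2) → 4 * (Θ + G) ≤ n →
    Ex (fun ω : Om N n => Real.exp (zb F ω G Θ) - 1) ≤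
      (2 + 2 * Real.exp 1 * G * (G + 1) + 8 * Real.exp 1 * (G + 1)) * mu n F +
      ∑ i ∈ range (Θ + G), Real.exp ((i : ℝ) + 1) *
        (Pr (fun ω : Om N n => 1 ≤ Nc F ω i ∧ Nc F ω i < Nc F ω (i - 3 * G)) +
          Pr (fun ω : Om N n => UncZ F ω G i))

/-- heavy and light part -/
def Stmt_KEB : Prop :=
  ∀ (N n : ℕ) (F : Finset (Finset (Fin N))) (_ : ∀ A ∈ F, A.card = n - 1) (G K T : ℕ),
    1 ≤ G → 4 * T ≤ n → 2 ≤ n → (T : ℝ) * Real.exp (3 * (G : ℝ)) ≤ K →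
    ∑ i ∈ range T, Real.exp ((i : ℝ) + 1) *
        (Pr (fun ω : Om N n => 1 ≤ Nc F ω i ∧ Nc F ω i < Nc F ω (i - 3 * G)) +
          Pr (fun ω : Om N n => UncZ F ω G i)) ≤
      (4 * Real.exp 1 + 42 * Real.exp 1 * G ^ 2 * Hm K) * mu n F

/-- choice of `K` -/
def Stmt_HMK : Prop :=
  ∀ (G Θ : ℕ), 1 ≤ G → (Θ : ℝ) ≤ Real.exp ((G : ℝ) / 2) →
    ∃ K : ℕ, ((Θ + G : ℕ) : ℝ) * Real.exp (3 * (G : ℝ)) ≤ K ∧ Hm K ≤ 6 * G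

/-- a geometric sum -/
def Stmt_GSM : Prop :=
  ∀ (G Θ : ℕ), (Θ : ℝ) ≤ Real.exp ((G : ℝ) / 2) →
    ∑ d ∈ range Θ, Real.exp (-((min G d : ℕ) / 2 : ℝ)) ≤ 4

/-- the key lemma -/
def Stmt_KEY : Prop :=
  ∀ (N n : ℕ) (F : Finset (Finset (Fin N))) (_ : ∀ A ∈ F, A.card = n - 1) (G Θ : ℕ),
    1 ≤ G → (Θ : ℝ) ≤ Real.exp ((G : ℝ) / 2) → 4 * (Θ + G) ≤ n →
    Ex (fun ω : Om N n => Real.exp (zb F ω G Θ) - 1) ≤ 760 * (G : ℝ) ^ 3 * mu n F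

/-! ### F. conclusion -/

/-- the probability that some `EvG` occurs -/
def Stmt_SUM : Prop :=
  ∀ (N n : ℕ) (E : Finset (Finset (Fin N))) (_ : ∀ e ∈ E, e.card = n) (G Θ : ℕ),
    1 ≤ G → (Θ : ℝ) ≤ Real.exp ((G : ℝ) / 2) → 4 * (Θ + G) ≤ n →
    Pr (fun ω : Om N n => ∃ g ∈ E, EvG G Θ E g ω) ≤
      1520 * (G : ℝ) ^ 3 * ((E.card : ℝ) / 2 ^ n) ^ 2 / n

/-- the colouring, under a numerical condition -/
def Stmt_BSD : Prop :=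
  ∀ (N n : ℕ) (E : Finset (Finset (Fin N))) (_ : ∀ e ∈ E, e.card = n) (G Θ : ℕ),
    1 ≤ G → (Θ : ℝ) ≤ Real.exp ((G : ℝ) / 2) → 4 * (Θ + G) ≤ n →
    (E.card : ℝ) / 2 ^ n * Real.exp (-(Θ : ℝ)) +
      ((E.card : ℝ) / 2 ^ n) ^ 2 * Θ * (4 * ((G : ℝ) + 1) ^ 2 / n ^ 2) * Real.exp ((Θ : ℝ) + G) +
      1520 * (G : ℝ) ^ 3 * ((E.card : ℝ) / 2 ^ n) ^ 2 / n < 1 / 2 →
    ∃ c : Fin N → Bool, ∀ e ∈ E, ∃ x ∈ e, ∃ y ∈ e, c x ≠ c y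

/-- choice of the parameters, first properties -/
def Stmt_NUA : Prop :=
  ∃ n₀ : ℕ, ∀ n : ℕ, n₀ ≤ n → ∃ G Θ : ℕ,
    1 ≤ G ∧ (Θ : ℝ) ≤ Real.exp ((G : ℝ) / 2) ∧ 4 * (Θ + G) ≤ n ∧
    1 ≤ Real.log (Real.log n) ∧ (Θ : ℝ) ≤ Real.log n ∧ (G : ℝ) ≤ 3 * Real.log (Real.log n) ∧
    Real.exp (-(Θ : ℝ)) ≤ 1 / Real.sqrt n ∧ Real.exp (Θ : ℝ) ≤ 3 * Real.sqrt n

/-- a limit -/
def Stmt_NUB : Prop :=
  ∃ n₀ : ℕ, ∀ n : ℕ, n₀ ≤ n →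
    (Real.log n) ^ 4 * (3 * Real.log (Real.log n) + 1) ^ 2 ≤ Real.sqrt n

/-- choice of the parameters -/
def Stmt_NUM : Prop :=
  ∃ n₀ : ℕ, ∀ n : ℕ, n₀ ≤ n → ∃ G Θ : ℕ,
    1 ≤ G ∧ (Θ : ℝ) ≤ Real.exp ((G : ℝ) / 2) ∧ 4 * (Θ + G) ≤ n ∧
    ∀ M : ℝ, 0 ≤ M → M ≤ (1 / 600) * Real.sqrt n / (Real.log (Real.log n)) ^ ((3 : ℝ) / 2) →
      M * Real.exp (-(Θ : ℝ)) +
        M ^ 2 * Θ * (4 * ((G : ℝ) + 1) ^ 2 / n ^ 2) * Real.exp ((Θ : ℝ) + G) +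
        1520 * (G : ℝ) ^ 3 * M ^ 2 / n < 1 / 2

/-- nonemptiness of the set defining `m(n)` -/
def Stmt_NEM : Prop :=
  ∀ n : ℕ, 1 ≤ n → ∃ N : ℕ, ∃ H : Finset (Finset (Fin N)), (∀ e ∈ H, e.card = n) ∧
    ∀ f : Fin N → Bool, ∃ e ∈ H, ∃ b : Bool, ∀ x ∈ e, f x = b

end Pool.Agent.PBL
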