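import Pool.Agent.PBL.Stmts

/-! Module ZBA: deterministic bound, used in the case of a set alive at `Θ`. -/

namespace Pool.Agent.PBL

open Finset

namespace ZBA_

variable {N n : ℕ}

theorem zom_lt {F : Finset (Finset (Fin N))} {ω : Om N n} {G Θ i : ℕ} (h : zom F ω G Θ i) :
    i < Θ + G := by
  obtain ⟨A, _, u, _, _, _, h2, h3, _⟩ := h
  omega

theorem sb_zero {F : Finset (Finset (Fin N))} {ω : Om N n} {G Θ i : ℕ} (h : ¬ zom F ω G Θ i)
    (hi : Θ ≤ i) : sb F ω G Θ i = 0 := by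
  unfold sb
  have h2 : ¬ (1 ≤ Nc F ω i ∧ i < Θ) := fun hh => by omega
  simp only [h, h2, if_false]

theorem zb_le {F : Finset (Finset (Fin N))} {ω : Om N n} {G Θ m : ℕ}
    (h : ∀ i, m ≤ i → sb F ω G Θ i = 0) : zb F ω G Θ ≤ m := by
  unfold zb
  calc ∑ i ∈ range n, sb F ω G Θ i ≤ ∑ i ∈ range n, (if i < m then (1 : ℝ) else 0) := by
        apply Finset.sum_le_sum
        intro i _
        by_cases hi : i < m
        · simp only [hi, if_true]; exact sb_le_one F ω G Θ i
        · simp only [hi, if_false]; exact le_of_eq (h i (by omega))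
    _ = (((range n).filter (fun i => i < m)).card : ℝ) := by
        rw [Finset.sum_ite, Finset.sum_const_zero, add_zero, Finset.sum_const, nsmul_eq_mul,
          mul_one]
    _ ≤ m := by
        have : ((range n).filter (fun i => i < m)).card ≤ (range m).card := by
          apply Finset.card_le_card
          intro i hi
          rw [Finset.mem_filter] at hi
          exact Finset.mem_range.2 hi.2
        rw [Finset.card_range] at this
        exact_mod_cast this

end ZBA_

open ZBA_ in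
theorem t_zba : Stmt_ZBA := by
  intro N n F G Θ ω
  have hnn : ∀ l ∈ Ico Θ (Θ + G), 0 ≤ Real.exp ((l : ℝ) + 1) * ind (zom F ω G Θ l) :=
    fun l _ => mul_nonneg (Real.exp_pos _).le (ind_nonneg _)
  have hs : 0 ≤ ∑ l ∈ Ico Θ (Θ + G), Real.exp ((l : ℝ) + 1) * ind (zom F ω G Θ l) :=
    Finset.sum_nonneg hnn
  classical
  by_cases hex : ∃ l, Θ ≤ l ∧ zom F ω G Θ l
  · obtain ⟨l0, hl0, hz0⟩ := hex
    have hne : ((Ico Θ (Θ + G)).filter (fun l => zom F ω G Θ l)).Nonempty :=
      ⟨l0, Finset.mem_filter.2 ⟨Finset.mem_Ico.2 ⟨hl0, zom_lt hz0⟩, hz0⟩⟩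
    obtain ⟨l, hl, hmax⟩ := Finset.exists_max_image _ (fun l : ℕ => l) hne
    rw [Finset.mem_filter, Finset.mem_Ico] at hl
    have hzb : zb F ω G Θ ≤ ((l + 1 : ℕ) : ℝ) := by
      apply zb_le
      intro i hi
      apply sb_zero _ (by omega)
      intro hzi
      have := hmax i (Finset.mem_filter.2 ⟨Finset.mem_Ico.2 ⟨by omega, zom_lt hzi⟩, hzi⟩)
      omega
    have h1 : Real.exp (zb F ω G Θ) ≤ Real.exp ((l : ℝ) + 1) * ind (zom F ω G Θ l) := by
      rw [ind_pos hl.2, mul_one]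
      apply Real.exp_le_exp.2
      push_cast at hzb
      exact hzb
    have h2 : Real.exp ((l : ℝ) + 1) * ind (zom F ω G Θ l) ≤
        ∑ l ∈ Ico Θ (Θ + G), Real.exp ((l : ℝ) + 1) * ind (zom F ω G Θ l) :=
      Finset.single_le_sum (f := fun l : ℕ => Real.exp ((l : ℝ) + 1) * ind (zom F ω G Θ l))
        hnn (Finset.mem_Ico.2 hl.1)
    have h3 := Real.exp_pos (Θ : ℝ)
    linarith
  · have hzb : zb F ω G Θ ≤ (Θ : ℝ) := by
      apply zb_le
      intro i hi
      exact sb_zero (fun h => hex ⟨i, hi, h⟩) hi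
    have h1 := Real.exp_le_exp.2 hzb
    linarith

end Pool.Agent.PBL
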