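import Pool.Agent.PBL.Stmts

/-! Module ZBB: the deterministic bound when no set is alive at `Θ`. -/

namespace Pool.Agent.PBL
open Finset

namespace ZBB_

theorem zom_alive {N n : ℕ} {F : Finset (Finset (Fin N))} {G Θ : ℕ} {ω : Om N n} {i : ℕ}
    (hΘn : Θ ≤ n) (h : zom F ω G Θ i) :
    ∃ A ∈ F, ∃ u ∈ A, lv ω u ≤ i ∧ i ≤ lv ω u + G ∧ lv ω u < Θ ∧ al ω (lv ω u) A := by
  obtain ⟨A, hA, u, hu, -, h1, h2, h3, h4⟩ := h
  refine ⟨A, hA, u, hu, h1, h2, h3, ?_⟩
  intro a ha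
  by_cases hau : a = u
  · subst hau
    exact ⟨le_refl _, by omega⟩
  · have := h4 a ha hau
    exact ⟨by omega, this.2⟩

theorem zom_le {N n : ℕ} {F : Finset (Finset (Fin N))} {G Θ : ℕ} {ω : Om N n} {i D : ℕ}
    (hΘn : Θ ≤ n) (hD : Nc F ω (D + 1) = 0) (h : zom F ω G Θ i) : i ≤ D + G := by
  obtain ⟨A, hA, u, hu, h1, h2, h3, h4⟩ := zom_alive hΘn h
  have h5 : 1 ≤ Nc F ω (lv ω u) := one_le_Nc.2 ⟨A, hA, h4⟩
  have h6 : lv ω u ≤ D := by
    by_contra hc
    push Not at hc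
    have := Nc_anti (F := F) (ω := ω) (i := D + 1) (j := lv ω u) (by omega)
    omega
  omega

theorem no_zom {N n : ℕ} {F : Finset (Finset (Fin N))} {G Θ : ℕ} {ω : Om N n} {i D : ℕ}
    (hΘn : Θ ≤ n) (hcl : Nc F ω (D - 2 * G) = Nc F ω D) (hi : i < D) (hi2 : D ≤ i + G) :
    ¬ zom F ω G Θ i := by
  intro h
  obtain ⟨A, hA, u, hu, h1, h2, h3, h4⟩ := zom_alive hΘn h
  have h5 : alv F ω D = alv F ω (D - 2 * G) :=
    Finset.eq_of_subset_of_card_le (alv_anti (by omega)) (le_of_eq hcl)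
  have h6 : A ∈ alv F ω (D - 2 * G) := mem_alv.2 ⟨hA, al_mono (by omega) h4⟩
  rw [← h5, mem_alv] at h6
  have := (h6.2 u hu).1
  omega

theorem sb_half {N n : ℕ} {F : Finset (Finset (Fin N))} {G Θ : ℕ} {ω : Om N n} {i D : ℕ}
    (hz : ¬ zom F ω G Θ i) (hD : Nc F ω (D + 1) = 0) (hi2 : D ≤ i + G) :
    sb F ω G Θ i ≤ 1 / 2 := by
  have h0 : Nc F ω (i + G + 1) = 0 := by
    have := Nc_anti (F := F) (ω := ω) (i := D + 1) (j := i + G + 1) (by omega)
    omega
  unfold sb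
  rw [if_neg hz, if_pos h0]
  split_ifs <;> norm_num

theorem sb_zero {N n : ℕ} {F : Finset (Finset (Fin N))} {G Θ : ℕ} {ω : Om N n} {i D : ℕ}
    (hz : ¬ zom F ω G Θ i) (hD : Nc F ω (D + 1) = 0) (hi : D < i) :
    sb F ω G Θ i = 0 := by
  have h0 : Nc F ω i = 0 := by
    have := Nc_anti (F := F) (ω := ω) (i := D + 1) (j := i) (by omega)
    omega
  unfold sb
  rw [if_neg hz, if_neg (by omega)]

end ZBB_

theorem t_zbb : Stmt_ZBB := by
  classical
  intro N n hn F hF G Θ ω hG hΘ hNΘ hN0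
  have hΘn : Θ ≤ n := by omega
  set D := Nat.findGreatest (fun j => 1 ≤ Nc F ω j) Θ with hDdef
  have hPD : 1 ≤ Nc F ω D :=
    Nat.findGreatest_spec (P := fun j => 1 ≤ Nc F ω j) (Nat.zero_le Θ) hN0
  have hDle : D ≤ Θ := Nat.findGreatest_le Θ
  have hDlt : D < Θ := by
    rcases Nat.lt_or_ge D Θ with h | h
    · exact h
    · exfalso
      have : D = Θ := le_antisymm hDle h
      rw [this, hNΘ] at hPD
      omega
  have hD1 : Nc F ω (D + 1) = 0 := by
    have := Nat.findGreatest_is_greatest (P := fun j => 1 ≤ Nc F ω j) (n := Θ) (k := D + 1)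
      (by omega) (by omega)
    simp only [not_le] at this
    omega
  -- choice of M
  obtain ⟨M, hDM, hMG, hMz, hMmax⟩ : ∃ M, D ≤ M ∧ M ≤ D + G ∧
      (M = D ∨ (D < M ∧ zom F ω G Θ M)) ∧ ∀ i, M < i → ¬ zom F ω G Θ i := by
    obtain ⟨S, hS⟩ : ∃ S : Finset ℕ, ∀ i, i ∈ S ↔ ((D < i ∧ i ≤ D + G) ∧ zom F ω G Θ i) :=
      ⟨(Ioc D (D + G)).filter (fun i => zom F ω G Θ i), fun i => by
        rw [mem_filter, mem_Ioc]⟩
    by_cases hne : S.Nonempty
    · obtain ⟨m, hm⟩ : ∃ m, m = S.max' hne := ⟨_, rfl⟩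
      have h0 : m ∈ S := by rw [hm]; exact S.max'_mem hne
      rw [hS] at h0
      refine ⟨m, by omega, by omega, Or.inr ⟨h0.1.1, h0.2⟩, ?_⟩
      intro i hi hz
      have h1 := ZBB_.zom_le hΘn hD1 hz
      have h2 : i ∈ S := by
        rw [hS]
        exact ⟨⟨by omega, h1⟩, hz⟩
      have := S.le_max' i h2
      omega
    · refine ⟨D, le_refl _, by omega, Or.inl rfl, ?_⟩
      intro i hi hz
      apply hne
      refine ⟨i, ?_⟩
      rw [hS]
      exact ⟨⟨hi, ZBB_.zom_le hΘn hD1 hz⟩, hz⟩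
  have hsum : zb F ω G Θ = ∑ i ∈ range (M + 1), sb F ω G Θ i := by
    unfold zb
    symm
    apply Finset.sum_subset
    · intro i hi
      rw [mem_range] at hi ⊢
      omega
    · intro i _ hi
      rw [mem_range, not_lt] at hi
      exact ZBB_.sb_zero (hMmax i (by omega)) hD1 (by omega)
  refine ⟨D, M, hDlt, hDM, hMG, hPD, hD1, hMz, ?_, ?_⟩
  · rw [hsum]
    calc ∑ i ∈ range (M + 1), sb F ω G Θ i ≤ ∑ _i ∈ range (M + 1), (1 : ℝ) :=
          Finset.sum_le_sum (fun i _ => sb_le_one _ _ _ _ _)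
      _ = (M : ℝ) + 1 := by simp
  · intro hcl
    rw [hsum]
    have key : ∀ i ∈ range (M + 1), sb F ω G Θ i ≤
        1 - (if i ∈ Ico (D - G) D then (1 / 2 : ℝ) else 0) := by
      intro i _
      by_cases hi : i ∈ Ico (D - G) D
      · rw [if_pos hi]
        rw [mem_Ico] at hi
        have := ZBB_.sb_half (ZBB_.no_zom hΘn hcl hi.2 (by omega)) hD1 (i := i) (by omega)
        linarith
      · rw [if_neg hi]
        have := sb_le_one F ω G Θ i
        linarith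
    have hc : ∑ i ∈ range (M + 1), (if i ∈ Ico (D - G) D then (1 / 2 : ℝ) else 0) =
        ((min G D : ℕ) : ℝ) / 2 := by
      rw [Finset.sum_ite_mem]
      have h1 : range (M + 1) ∩ Ico (D - G) D = Ico (D - G) D := by
        apply Finset.inter_eq_right.2
        intro i hi
        rw [mem_Ico] at hi
        rw [mem_range]
        omega
      rw [h1, Finset.sum_const, Nat.card_Ico, nsmul_eq_mul]
      have h2 : D - (D - G) = min G D := by omega
      rw [h2]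
      ring
    calc ∑ i ∈ range (M + 1), sb F ω G Θ i
        ≤ ∑ i ∈ range (M + 1), (1 - (if i ∈ Ico (D - G) D then (1 / 2 : ℝ) else 0)) :=
          Finset.sum_le_sum key
      _ = (M : ℝ) + 1 - (min G D : ℕ) / 2 := by
          rw [Finset.sum_sub_distrib, hc]
          simp

end Pool.Agent.PBL
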