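import Pool.Agent.PBL.Stmts

/-!
# PBL, module ZBC: a zombie after the last alive level, clean case
-/

set_option autoImplicit false

namespace Pool.Agent.PBL

open Finset

theorem t_zbc : Stmt_ZBC := by
  intro N n F G Θ ω D M hG hΘ hDM hMD hND hN1 hz hcl
  obtain ⟨A, hA, u, hu, -, ht1, ht2, ht3, hoth⟩ := hz
  have hal : al ω (lv ω u) A := by
    intro a ha
    by_cases h : a = u
    · subst h
      exact ⟨le_refl _, by omega⟩
    · have := hoth a ha h
      exact ⟨by omega, this.2⟩
  have htD : lv ω u ≤ D := by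
    by_contra hcon
    have h1 : al ω (D + 1) A := al_mono (by omega) hal
    have h2 : 1 ≤ Nc F ω (D + 1) := one_le_Nc.2 ⟨A, hA, h1⟩
    omega
  have hal2 : al ω (D - 2 * G) A := al_mono (by omega) hal
  have heq : alv F ω D = alv F ω (D - 2 * G) :=
    Finset.eq_of_subset_of_card_le (alv_anti (by omega)) (by
      show Nc F ω (D - 2 * G) ≤ Nc F ω D
      omega)
  have hmem : A ∈ alv F ω D := by
    rw [heq]
    exact mem_alv.2 ⟨hA, hal2⟩
  have hD : al ω D A := (mem_alv.1 hmem).2
  have h3 := (hD u hu).1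
  exact ⟨A, hA, u, hu, by rw [Finset.mem_singleton]; omega, hoth⟩

end Pool.Agent.PBL
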