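import Pool.Agent.PBL.Stmts

/-!
# PBL, module ZBD: the deterministic bound
-/

namespace Pool.Agent.PBL

open Finset

namespace ZBD_

variable {N n : ℕ}

theorem nn (x : ℝ) (p : Prop) : 0 ≤ Real.exp x * ind p :=
  mul_nonneg (Real.exp_pos _).le (ind_nonneg _)

/-- a zombie gives an alive set -/
theorem zom_alive {F : Finset (Finset (Fin N))} {ω : Om N n} {G Θ i : ℕ} (hΘ : Θ ≤ n)
    (h : zom F ω G Θ i) : 1 ≤ Nc F ω 0 := by
  obtain ⟨A, hA, u, hu, -, -, -, hlt, hall⟩ := h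
  rw [one_le_Nc]
  refine ⟨A, hA, fun a ha => ⟨Nat.zero_le _, ?_⟩⟩
  by_cases h : a = u
  · subst h
    omega
  · exact (hall a ha h).2

end ZBD_

open ZBD_ in
theorem t_zbd (hZBA : Stmt_ZBA) (hZBB : Stmt_ZBB) (hZBC : Stmt_ZBC) (hZBU : Stmt_ZBU) :
    Stmt_ZBD := by
  intro N n hn F hF G Θ ω hG hΘ
  set T1 := Real.exp Θ * ind (1 ≤ Nc F ω Θ) with hT1
  set T2 := ∑ l ∈ Ico Θ (Θ + G), Real.exp ((l : ℝ) + 1) * ind (zom F ω G Θ l) with hT2
  set T3 := ∑ d ∈ range Θ, Real.exp ((d : ℝ) + 1 - (min G d : ℕ) / 2) * ind (1 ≤ Nc F ω d) with hT3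
  set T4 := ∑ d ∈ range Θ, ∑ m ∈ Ioc d (d + G),
    Real.exp ((m : ℝ) + 1 - (min G d : ℕ) / 2) * ind (ZD F ω {d} m) with hT4
  set T5 := ∑ i ∈ range (Θ + G), Real.exp ((i : ℝ) + 1) *
    (ind (1 ≤ Nc F ω i ∧ Nc F ω i < Nc F ω (i - 3 * G)) + ind (UncZ F ω G i)) with hT5
  have n1 : 0 ≤ T1 := nn _ _
  have n2 : 0 ≤ T2 := Finset.sum_nonneg fun _ _ => nn _ _
  have n3 : 0 ≤ T3 := Finset.sum_nonneg fun _ _ => nn _ _
  have n4 : 0 ≤ T4 := Finset.sum_nonneg fun _ _ => Finset.sum_nonneg fun _ _ => nn _ _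
  have t5n : ∀ i ∈ range (Θ + G), 0 ≤ Real.exp ((i : ℝ) + 1) *
      (ind (1 ≤ Nc F ω i ∧ Nc F ω i < Nc F ω (i - 3 * G)) + ind (UncZ F ω G i)) := fun i _ =>
    mul_nonneg (Real.exp_pos _).le (add_nonneg (ind_nonneg _) (ind_nonneg _))
  have n5 : 0 ≤ T5 := Finset.sum_nonneg t5n
  by_cases h0 : Nc F ω 0 = 0
  · -- nothing alive
    have hz : zb F ω G Θ = 0 := by
      unfold zb
      apply Finset.sum_eq_zero
      intro i _
      have h1 : ¬ zom F ω G Θ i := fun h => by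
        have := zom_alive (by omega) h
        omega
      have h2 : ¬ (1 ≤ Nc F ω i ∧ i < Θ) := fun h => by
        have := Nc_anti (F := F) (ω := ω) (Nat.zero_le i)
        omega
      unfold sb
      rw [if_neg h1, if_neg h2]
    rw [hz, Real.exp_zero]
    linarith
  by_cases hT : 1 ≤ Nc F ω Θ
  · have h := hZBA N n F G Θ ω
    have e1 : T1 = Real.exp Θ := by rw [hT1, ind_pos hT, mul_one]
    linarith
  · obtain ⟨D, M, hDΘ, hDM, hMG, hND, hND1, hMD, hzb, hzbc⟩ :=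
      hZBB N n hn F hF G Θ ω hG hΘ (by omega) (by omega)
    have hMΘ : M < Θ + G := by omega
    by_cases hcl : Nc F ω (D - 2 * G) = Nc F ω D
    · -- clean
      have hz := hzbc hcl
      rcases hMD with rfl | ⟨hlt, hzom⟩
      · have h1 : Real.exp ((M : ℝ) + 1 - (min G M : ℕ) / 2) * ind (1 ≤ Nc F ω M) ≤ T3 :=
          Finset.single_le_sum (f := fun d : ℕ => Real.exp ((d : ℝ) + 1 - (min G d : ℕ) / 2) *
            ind (1 ≤ Nc F ω d)) (fun _ _ => nn _ _) (Finset.mem_range.2 hDΘ)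
        rw [ind_pos hND, mul_one] at h1
        have h2 := Real.exp_le_exp.2 hz
        linarith
      · have hZD := hZBC N n F G Θ ω D M hG (by omega) hlt hMG hND hND1 hzom hcl
        have h1 : Real.exp ((M : ℝ) + 1 - (min G D : ℕ) / 2) * ind (ZD F ω {D} M) ≤
            ∑ m ∈ Ioc D (D + G), Real.exp ((m : ℝ) + 1 - (min G D : ℕ) / 2) *
              ind (ZD F ω {D} m) :=
          Finset.single_le_sum (f := fun m : ℕ => Real.exp ((m : ℝ) + 1 - (min G D : ℕ) / 2) *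
            ind (ZD F ω {D} m)) (fun _ _ => nn _ _) (Finset.mem_Ioc.2 ⟨hlt, hMG⟩)
        have h2 : ∑ m ∈ Ioc D (D + G), Real.exp ((m : ℝ) + 1 - (min G D : ℕ) / 2) *
              ind (ZD F ω {D} m) ≤ T4 :=
          Finset.single_le_sum (f := fun d : ℕ => ∑ m ∈ Ioc d (d + G),
            Real.exp ((m : ℝ) + 1 - (min G d : ℕ) / 2) * ind (ZD F ω {d} m))
            (fun _ _ => Finset.sum_nonneg fun _ _ => nn _ _) (Finset.mem_range.2 hDΘ)
        rw [ind_pos hZD, mul_one] at h1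
        have h3 := Real.exp_le_exp.2 hz
        linarith
    · -- unclean
      have hlt' : Nc F ω D < Nc F ω (D - 2 * G) :=
        lt_of_le_of_ne (Nc_anti (Nat.sub_le _ _)) (fun h => hcl h.symm)
      have h3 := Real.exp_le_exp.2 hzb
      have h1 := Finset.single_le_sum t5n (Finset.mem_range.2 hMΘ)
      have h4 : (1 : ℝ) ≤ ind (1 ≤ Nc F ω M ∧ Nc F ω M < Nc F ω (M - 3 * G)) +
          ind (UncZ F ω G M) := by
        rcases hMD with rfl | ⟨hlt, hzom⟩
        · have h5 : Nc F ω (M - 2 * G) ≤ Nc F ω (M - 3 * G) := Nc_anti (by omega)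
          rw [ind_pos ⟨hND, lt_of_lt_of_le hlt' h5⟩]
          have := ind_nonneg (UncZ F ω G M)
          linarith
        · have hU := hZBU N n F G Θ ω D M hG (by omega) hlt hMG hND hND1 hzom hlt'
          rw [ind_pos hU]
          have := ind_nonneg (1 ≤ Nc F ω M ∧ Nc F ω M < Nc F ω (M - 3 * G))
          linarith
      have h6 : Real.exp ((M : ℝ) + 1) * 1 ≤ Real.exp ((M : ℝ) + 1) *
          (ind (1 ≤ Nc F ω M ∧ Nc F ω M < Nc F ω (M - 3 * G)) + ind (UncZ F ω G M)) :=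
        mul_le_mul_of_nonneg_left h4 (Real.exp_pos _).le
      linarith

end Pool.Agent.PBL
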